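import Pool.Agent.L7h49.EP.Per

/-!
# Simple properties of Bastiani maps, additive and discrete Lie groups
-/

open Filter Topology Set

namespace Pool.Agent.L7h49.EP

universe u v w

section Cal

theorem Cn.mono (n : ℕ) : ∀ {E : Type u} {F : Type v} [AddCommGroup E] [Module ℝ E]
    [TopologicalSpace E] [AddCommGroup F] [Module ℝ F] [TopologicalSpace F] {f : E → F}
    {U V : Set E}, Cn n f U → V ⊆ U → Cn n f V := by
  induction n with
  | zero =>
    intro E F _ _ _ _ _ _ f U V h hV
    exact ContinuousOn.mono h hV
  | succ n ih =>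
    intro E F _ _ _ _ _ _ f U V h hV
    obtain ⟨h0, f', h1, h2⟩ := h
    exact ⟨h0.mono hV, f', fun x hx => h1 x (hV hx), ih h2 (prod_mono hV le_rfl)⟩

theorem Cn.prodMk (n : ℕ) : ∀ {E : Type u} {F : Type v} {G : Type w} [AddCommGroup E] [Module ℝ E]
    [TopologicalSpace E] [AddCommGroup F] [Module ℝ F] [TopologicalSpace F]
    [AddCommGroup G] [Module ℝ G] [TopologicalSpace G] {f : E → F} {g : E → G}
    {U : Set E}, Cn n f U → Cn n g U → Cn n (fun x => (f x, g x)) U := by
  induction n with
  | zero =>
    intro E F G _ _ _ _ _ _ _ _ _ f g U h h'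
    exact ContinuousOn.prodMk h h'
  | succ n ih =>
    intro E F G _ _ _ _ _ _ _ _ _ f g U h h'
    obtain ⟨h0, f', h1, h2⟩ := h
    obtain ⟨h0', g', h1', h2'⟩ := h'
    refine ⟨h0.prodMk h0', fun z => (f' z, g' z), fun x hx v => ?_, ih h2 h2'⟩
    have := (h1 x hx v).prodMk_nhds (h1' x hx v)
    exact this

theorem Cn.clm (n : ℕ) : ∀ {E : Type u} {F : Type v} [AddCommGroup E] [Module ℝ E]
    [TopologicalSpace E] [AddCommGroup F] [Module ℝ F] [TopologicalSpace F] (L : E →L[ℝ] F)
    (U : Set E), Cn n (fun x => L x) U := by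
  induction n with
  | zero =>
    intro E F _ _ _ _ _ _ L U
    exact L.continuous.continuousOn
  | succ n ih =>
    intro E F _ _ _ _ _ _ L U
    refine ⟨L.continuous.continuousOn, fun z => L z.2, fun x _ v => ?_,
      ih (L.comp (ContinuousLinearMap.snd ℝ E E)) _⟩
    refine tendsto_const_nhds.congr' ?_
    filter_upwards [self_mem_nhdsWithin] with t ht
    have ht' : t ≠ 0 := ht
    rw [map_add, map_smul, add_sub_cancel_left, smul_smul, inv_mul_cancel₀ ht', one_smul]

theorem Cn.const (n : ℕ) : ∀ {E : Type u} {F : Type v} [AddCommGroup E] [Module ℝ E]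
    [TopologicalSpace E] [AddCommGroup F] [Module ℝ F] [TopologicalSpace F] (a : F)
    (U : Set E), Cn n (fun _ : E => a) U := by
  induction n with
  | zero =>
    intro E F _ _ _ _ _ _ a U
    exact continuousOn_const
  | succ n ih =>
    intro E F _ _ _ _ _ _ a U
    refine ⟨continuousOn_const, fun _ => 0, fun x _ v => ?_, ih 0 _⟩
    refine tendsto_const_nhds.congr fun t => ?_
    rw [sub_self, smul_zero]

theorem Cn.congr {n : ℕ} {E : Type u} {F : Type v} [AddCommGroup E] [Module ℝ E]
    [TopologicalSpace E] [ContinuousAdd E] [ContinuousSMul ℝ E] [AddCommGroup F] [Module ℝ F]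
    [TopologicalSpace F] {f g : E → F} {U : Set E} (hU : IsOpen U) (h : Cn n f U)
    (hfg : ∀ x ∈ U, g x = f x) : Cn n g U := by
  cases n with
  | zero => exact ContinuousOn.congr h hfg
  | succ n =>
    obtain ⟨h0, f', h1, h2⟩ := h
    refine ⟨h0.congr hfg, f', fun x hx v => ?_, h2⟩
    refine (h1 x hx v).congr' ?_
    filter_upwards [(tendsto_line x v).eventually (hU.mem_nhds hx)] with t ht
    rw [hfg x hx, hfg _ ht]

theorem Cn.of_subsingleton_dom (n : ℕ) {E : Type u} {F : Type v} [AddCommGroup E] [Module ℝ E]
    [TopologicalSpace E] [AddCommGroup F] [Module ℝ F] [TopologicalSpace F] [Subsingleton E]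
    (f : E → F) (U : Set E) : Cn n f U := by
  have : f = fun _ => f 0 := funext fun x => by rw [Subsingleton.elim x 0]
  rw [this]
  exact Cn.const n _ U

end Cal

section Groups

/-- The additive group of a locally convex space is a Lie group. -/
def stdLie (E : Type u) [AddCommGroup E] [Module ℝ E] [TopologicalSpace E]
    [IsTopologicalAddGroup E] : LieStr E (Multiplicative E) where
  atlas := {(Homeomorph.toOpenPartialHomeomorph
    { toEquiv := Multiplicative.toAdd, continuous_toFun := continuous_toAdd,
      continuous_invFun := continuous_ofAdd })}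
  cover := fun k => ⟨_, rfl, mem_univ _⟩
  compat := by
    rintro e rfl e' rfl n
    exact Cn.clm n (ContinuousLinearMap.id ℝ E) _
  smooth_mul := by
    rintro e rfl e' rfl e'' rfl n
    exact Cn.clm n (ContinuousLinearMap.fst ℝ E E + ContinuousLinearMap.snd ℝ E E) _
  smooth_inv := by
    rintro e rfl e' rfl n
    exact Cn.clm n (-ContinuousLinearMap.id ℝ E) _

/-- A discrete group is a zero-dimensional Lie group. -/
def discLie (K : Type w) [Group K] [TopologicalSpace K] [DiscreteTopology K] :
    LieStr PUnit.{v + 1} K where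
  atlas := range fun k : K =>
    { toFun := fun _ => PUnit.unit
      invFun := fun _ => k
      source := {k}
      target := univ
      map_source' := fun _ _ => mem_univ _
      map_target' := fun _ _ => rfl
      left_inv' := fun _ hx => hx.symm
      right_inv' := fun _ _ => rfl
      open_source := isOpen_discrete _
      open_target := isOpen_univ
      continuousOn_toFun := continuousOn_const
      continuousOn_invFun := continuousOn_const }
  cover := fun k => ⟨_, ⟨k, rfl⟩, rfl⟩
  compat := fun _ _ _ _ n => Cn.of_subsingleton_dom n _ _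
  smooth_mul := fun _ _ _ _ _ _ n => Cn.of_subsingleton_dom n _ _
  smooth_inv := fun _ _ _ _ n => Cn.of_subsingleton_dom n _ _

end Groups

end Pool.Agent.L7h49.EP
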