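import Pool.Agent.L7h49.EP.Jet

/-!
# Maps of class `C^1` are strictly differentiable
-/

open Filter Topology Set

namespace Pool.Agent.L7h49.EP

universe u v

/-- Hahn-Banach: a linear functional which is dominated by `p` and agrees with it at `z`. -/
theorem exists_dominated {F : Type v} [AddCommGroup F] [Module ℝ F] (p : Seminorm ℝ F) (z : F) :
    ∃ l : F →ₗ[ℝ] ℝ, l z = p z ∧ ∀ y, |l y| ≤ p y := by
  rcases eq_or_ne z 0 with rfl | hz
  · exact ⟨0, by simp, fun y => by simp⟩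
  obtain ⟨l, hl1, hl2⟩ := exists_extension_of_le_sublinear
    (LinearPMap.mkSpanSingleton (K := ℝ) z (p z) hz) p
    (fun c hc x => by rw [map_smul_eq_mul, Real.norm_eq_abs, abs_of_pos hc])
    (fun x y => map_add_le_add p x y) (by
      rintro ⟨x, hx⟩
      obtain ⟨c, rfl⟩ := Submodule.mem_span_singleton.1 hx
      rw [LinearPMap.mkSpanSingleton'_apply]
      change c * p z ≤ p (c • z)
      rw [map_smul_eq_mul, Real.norm_eq_abs]
      exact mul_le_mul_of_nonneg_right (le_abs_self c) (apply_nonneg p z))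
  refine ⟨l, ?_, fun y => ?_⟩
  · have := hl1 ⟨z, Submodule.mem_span_singleton_self z⟩
    rw [this]
    exact LinearPMap.mkSpanSingleton'_apply_self _ _ _ _
  · rw [abs_le]
    refine ⟨?_, hl2 y⟩
    have := hl2 (-y)
    rw [map_neg, map_neg_eq_map] at this
    linarith

theorem mvt {F : Type v} [AddCommGroup F] [Module ℝ F] [TopologicalSpace F]
    [IsTopologicalAddGroup F] [ContinuousSMul ℝ F]
    (p : Seminorm ℝ F) (hp : Continuous p) (φ φ' : ℝ → F) (c : F) (ε : ℝ)
    (hφ : ∀ s ∈ Icc (0 : ℝ) 1,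
      Tendsto (fun t : ℝ => t⁻¹ • (φ (s + t) - φ s)) (𝓝[≠] 0) (𝓝 (φ' s)))
    (hε : ∀ s ∈ Icc (0 : ℝ) 1, p (φ' s - c) ≤ ε) : p (φ 1 - φ 0 - c) ≤ ε := by
  obtain ⟨l, hl1, hl2⟩ := exists_dominated p (φ 1 - φ 0 - c)
  have hlc : Continuous l := by
    have h0 : ContinuousAt l 0 := by
      rw [ContinuousAt, map_zero]
      refine squeeze_zero_norm (a := fun y => p y) (fun y => hl2 y) ?_
      have := hp.tendsto 0
      rwa [map_zero] at this
    exact continuous_of_continuousAt_zero l h0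
  have hder : ∀ s ∈ Icc (0 : ℝ) 1, HasDerivWithinAt (fun s => l (φ s) - s * l c)
      (l (φ' s - c)) (Icc 0 1) s := by
    intro s hs
    refine HasDerivAt.hasDerivWithinAt ?_
    have h1 : HasDerivAt (fun s => l (φ s)) (l (φ' s)) s := by
      rw [hasDerivAt_iff_tendsto_slope_zero]
      refine ((hlc.tendsto _).comp (hφ s hs)).congr fun t => ?_
      simp only [Function.comp, map_smul, map_sub]
    have h2 : HasDerivAt (fun s : ℝ => s * l c) (l c) s := by
      simpa using (hasDerivAt_id s).mul_const (l c)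
    have := h1.sub h2
    rwa [← map_sub] at this
  have h3 := Convex.norm_image_sub_le_of_norm_hasDerivWithin_le (s := Icc (0 : ℝ) 1) (C := ε)
    hder (fun s hs => (hl2 _).trans (hε s hs)) (convex_Icc 0 1) (x := 0) (y := 1)
    ⟨le_rfl, zero_le_one⟩ ⟨zero_le_one, le_rfl⟩
  rw [← hl1]
  have h4 : l (φ 1 - φ 0 - c) = (l (φ 1) - 1 * l c) - (l (φ 0) - 0 * l c) := by
    rw [map_sub, map_sub]; ring
  rw [h4]
  refine (le_abs_self _).trans (h3.trans ?_)
  simp

theorem s_STRONG : S_STRONG.{u, v} := by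
  intro E F _ _ _ _ _ _ _ _ _ _ _ f U f' hU hf hc x hx v
  have hW := with_gaugeSeminormFamily (𝕜 := ℝ) (E := F)
  rw [hW.tendsto_nhds]
  intro i ε hε
  set p := gaugeSeminormFamily ℝ F i with hp
  have hpc : Continuous p := hW.continuous_seminorm i
  have h1 : ∀ᶠ z in 𝓝 (x, v), z.1 ∈ U ∧ p (f' z - f' (x, v)) < ε / 2 := by
    have h2 : ContinuousAt f' (x, v) :=
      hc.continuousAt ((hU.prod isOpen_univ).mem_nhds ⟨hx, mem_univ _⟩)
    have h3 : ContinuousAt (fun z => p (f' z - f' (x, v))) (x, v) :=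
      hpc.continuousAt.comp (h2.sub continuousAt_const)
    have h4 : p (f' (x, v) - f' (x, v)) < ε / 2 := by
      rw [sub_self, map_zero]; positivity
    exact (continuousAt_fst.eventually (hU.mem_nhds hx)).and (h3.eventually_lt_const h4)
  have h2 : ∀ᶠ q in 𝓝 ((0 : ℝ), (x, v)), ∀ s ∈ Icc (0 : ℝ) 1,
      (q.2.1 + (s * q.1) • q.2.2) ∈ U ∧
        p (f' (q.2.1 + (s * q.1) • q.2.2, q.2.2) - f' (x, v)) < ε / 2 := by
    refine isCompact_Icc.eventually_forall_of_forall_eventually fun s _ => ?_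
    have hcont : Continuous fun z : (ℝ × (E × E)) × ℝ =>
        ((z.1.2.1 + (z.2 * z.1.1) • z.1.2.2, z.1.2.2) : E × E) := by fun_prop
    have h3 := hcont.tendsto (((0 : ℝ), (x, v)), s)
    simp only [mul_zero, zero_smul, add_zero] at h3
    exact h3.eventually h1
  have h3 : 𝓝[≠] (0 : ℝ) ×ˢ (𝓝 x ×ˢ 𝓝 v) ≤ 𝓝 ((0 : ℝ), (x, v)) := by
    rw [nhds_prod_eq, nhds_prod_eq]
    exact prod_mono nhdsWithin_le_nhds le_rfl
  have h4 : ∀ᶠ q : ℝ × (E × E) in 𝓝[≠] (0 : ℝ) ×ˢ (𝓝 x ×ˢ 𝓝 v), q.1 ≠ 0 :=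
    tendsto_fst.eventually self_mem_nhdsWithin
  filter_upwards [h3 h2, h4] with q hq ht
  obtain ⟨t, x', v'⟩ := q
  simp only at hq ht ⊢
  have h5 := mvt p hpc (fun s => t⁻¹ • f (x' + (s * t) • v'))
    (fun s => f' (x' + (s * t) • v', v')) (f' (x, v)) (ε / 2) (fun s hs => ?_)
    (fun s hs => (hq s hs).2.le)
  · simp only [one_mul, zero_mul, zero_smul, add_zero, ← smul_sub] at h5
    exact h5.trans_lt (half_lt_self hε)
  · have h6 := hf _ (hq s hs).1 v'
    refine (h6.comp (tendsto_mul_ne ht)).congr' ?_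
    filter_upwards [self_mem_nhdsWithin] with r hr
    have hr' : r ≠ 0 := hr
    simp only [Function.comp, ← smul_sub, smul_smul, mul_inv]
    congr 3
    rw [add_assoc, ← add_smul, add_mul]

end Pool.Agent.L7h49.EP
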