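import Pool.Agent.L7h49.EP.Cal
import Pool.Agent.L7h49.EP.Strong

/-!
# The chain rule
-/

open Filter Topology Set

namespace Pool.Agent.L7h49.EP

universe u v w

theorem Cn.of_succ (n : ℕ) : ∀ {E : Type u} {F : Type v} [AddCommGroup E] [Module ℝ E]
    [TopologicalSpace E] [AddCommGroup F] [Module ℝ F] [TopologicalSpace F] {f : E → F}
    {U : Set E}, Cn (n + 1) f U → Cn n f U := by
  induction n with
  | zero =>
    intro E F _ _ _ _ _ _ f U h
    exact h.1
  | succ n ih =>
    intro E F _ _ _ _ _ _ f U h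
    obtain ⟨h0, f', h1, h2⟩ := h
    exact ⟨h0, f', h1, ih h2⟩

theorem Cn.comp_clm (n : ℕ) : ∀ {E : Type u} {E' : Type u} {F : Type v} [AddCommGroup E]
    [Module ℝ E] [TopologicalSpace E] [AddCommGroup E'] [Module ℝ E'] [TopologicalSpace E']
    [AddCommGroup F] [Module ℝ F] [TopologicalSpace F] {f : E → F}
    {U : Set E} (L : E' →L[ℝ] E), Cn n f U → Cn n (fun x => f (L x)) (L ⁻¹' U) := by
  induction n with
  | zero =>
    intro E E' F _ _ _ _ _ _ _ _ _ f U L h
    exact ContinuousOn.comp (t := U) h L.continuous.continuousOn (fun x hx => hx)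
  | succ n ih =>
    intro E E' F _ _ _ _ _ _ _ _ _ f U L h
    obtain ⟨h0, f', h1, h2⟩ := h
    refine ⟨ContinuousOn.comp (t := U) h0 L.continuous.continuousOn (fun x hx => hx),
      fun z => f' (L z.1, L z.2), fun x hx v => ?_, ?_⟩
    · have := h1 (L x) hx (L v)
      refine this.congr fun t => ?_
      simp only [map_add, map_smul]
    · have := ih (L.prodMap L) h2
      refine Cn.mono n (this) ?_
      intro z hz
      exact ⟨hz.1, mem_univ _⟩

theorem s_COMP : S_COMP.{u, v, w} := by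
  intro n
  induction n with
  | zero =>
    intro E F G _ _ _ _ _ _ _ _ _ _ _ _ _ _ _ _ _ _ f g U V hU hV hm hf hg
    exact ContinuousOn.comp hg hf hm
  | succ n ih =>
    intro E F G _ _ _ _ _ _ _ _ _ _ _ _ _ _ _ _ _ _ f g U V hU hV hm hf hg
    have hfn := Cn.of_succ n hf
    obtain ⟨h0, f', h1, h2⟩ := hf
    obtain ⟨k0, g', k1, k2⟩ := hg
    refine ⟨k0.comp h0 hm, fun z => g' (f z.1, f' z), fun x hx v => ?_, ?_⟩
    · have h3 := s_STRONG F G g V g' hV k1 k2.continuousOn (f x) (hm hx) (f' (x, v))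
      have h4 : Tendsto (fun t : ℝ => (t, (f x, t⁻¹ • (f (x + t • v) - f x)))) (𝓝[≠] 0)
          (𝓝[≠] 0 ×ˢ (𝓝 (f x) ×ˢ 𝓝 (f' (x, v)))) :=
        tendsto_id.prodMk (tendsto_const_nhds.prodMk (h1 x hx v))
      refine (h3.comp h4).congr' ?_
      filter_upwards [self_mem_nhdsWithin] with t ht
      have ht' : t ≠ 0 := ht
      simp only [Function.comp, smul_smul, mul_inv_cancel₀ ht', one_smul, add_sub_cancel]
    · refine ih (E × E) (F × F) G (fun z => (f z.1, f' z)) g' (U ×ˢ univ) (V ×ˢ univ)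
        (hU.prod isOpen_univ) (hV.prod isOpen_univ) (fun z hz => ⟨hm hz.1, mem_univ _⟩)
        (Cn.prodMk n ?_ h2) k2
      refine Cn.mono n (Cn.comp_clm n (ContinuousLinearMap.fst ℝ E E) hfn) ?_
      intro z hz
      exact hz.1

end Pool.Agent.L7h49.EP
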