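import Pool.Agent.L7h49.EP.LocLip

/-!
# The size of conjugates in a Lie group, lengths
-/

open Filter Topology Set

namespace Pool.Agent.L7h49.EP

set_option linter.unusedSectionVars false
set_option linter.unusedVariables false

universe v w

/-- A modulus: a monotone nonnegative function which tends to `0` at `0` from the right. -/
def IsModulus (ω : ℝ → ℝ) : Prop :=
  Monotone ω ∧ (∀ t, 0 ≤ ω t) ∧ Tendsto ω (𝓝[≥] 0) (𝓝 0)

/-- Small products: in the chart `e`, with `e 1 = 0`, products of arbitrarily many small elements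
are small if the sum of the sizes of the factors is small, the size of `k` being `ω (q (e k))` for
some continuous seminorm `q` and some modulus `ω`. This holds with `ω t = t` if the group is
locally `μ`-convex. -/
def SmallProducts {W : Type v} [AddCommGroup W] [Module ℝ W] [TopologicalSpace W]
    {H : Type w} [Group H] [TopologicalSpace H] (e : OpenPartialHomeomorph H W) : Prop :=
  (1 : H) ∈ e.source ∧ e 1 = 0 ∧
  ∀ M ∈ 𝓝 (1 : H), ∃ q : Seminorm ℝ W, Continuous q ∧ ∃ ω : ℝ → ℝ, IsModulus ω ∧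
    ∀ l : List H, (∀ k ∈ l, k ∈ e.source) → (l.map fun k => ω (q (e k))).sum < 1 → l.prod ∈ M

section

variable {W : Type v} [AddCommGroup W] [Module ℝ W] [TopologicalSpace W] [IsTopologicalAddGroup W]
    [ContinuousSMul ℝ W] [LocallyConvexSpace ℝ W] [T2Space W]
    {H : Type w} [Group H] [TopologicalSpace H] [IsTopologicalGroup H]

theorem exists_chart_seminorm {e : OpenPartialHomeomorph H W} (h1 : (1 : H) ∈ e.source)
    (h0 : e 1 = 0) {M : Set H} (hM : M ∈ 𝓝 (1 : H)) :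
    ∃ q : Seminorm ℝ W, Continuous q ∧ ∀ m ∈ e.source, q (e m) < 1 → m ∈ M := by
  have h2 : ContinuousAt e.symm (e 1) := e.continuousAt_symm (e.map_source h1)
  have h3 : e.symm ⁻¹' M ∈ 𝓝 (e 1) := by
    refine h2 ?_
    rw [e.left_inv h1]
    exact hM
  rw [h0] at h3
  obtain ⟨q, hqc, hq⟩ := exists_seminorm h3
  refine ⟨q, hqc, fun m hm hqm => ?_⟩
  have := hq _ hqm
  rw [mem_preimage, e.left_inv hm] at this
  exact this

theorem mul_dom (S : LieStr W H) {e e' e'' : OpenPartialHomeomorph H W} :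
    IsOpen {z : W × W | z.1 ∈ e.target ∧ z.2 ∈ e'.target ∧ e.symm z.1 * e'.symm z.2 ∈ e''.source} := by
  have hc : ContinuousOn (fun z : W × W => e.symm z.1 * e'.symm z.2) (e.target ×ˢ e'.target) :=
    (e.continuousOn_symm.comp continuousOn_fst (fun z hz => hz.1)).mul
      (e'.continuousOn_symm.comp continuousOn_snd (fun z hz => hz.2))
  have := hc.isOpen_inter_preimage (e.open_target.prod e'.open_target) e''.open_source
  convert this using 1
  ext z
  simp only [mem_ofPred_eq, mem_inter_iff, mem_prod, mem_preimage]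
  tauto

/-- Conjugation by elements near `k₀` is Lipschitz at the unit element. -/
theorem conj_est (S : LieStr W H) {e : OpenPartialHomeomorph H W} (he : e ∈ S.atlas)
    (h1 : (1 : H) ∈ e.source) (h0 : e 1 = 0) (k₀ : H) (p : Seminorm ℝ W) (hp : Continuous p) :
    ∃ q : Seminorm ℝ W, Continuous q ∧ ∃ N ∈ 𝓝 k₀, ∀ k ∈ N, ∀ m ∈ e.source, q (e m) < 1 →
      k * m * k⁻¹ ∈ e.source ∧ p (e (k * m * k⁻¹)) ≤ q (e m) := by
  obtain ⟨e₁, he₁, hk₁⟩ := S.cover k₀
  obtain ⟨e₃, he₃, hk₃⟩ := S.cover k₀⁻¹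
  -- the second multiplication
  obtain ⟨q₂, hq₂, N₂, hN₂, H₂⟩ := locLip (f := fun z : W × W => e (e₁.symm z.1 * e₃.symm z.2))
    (mul_dom S) (S.smooth_mul e₁ he₁ e₃ he₃ e he 1) (x₀ := (e₁ k₀, e₃ k₀⁻¹))
    ⟨e₁.map_source hk₁, e₃.map_source hk₃, by
      simpa [e₁.left_inv hk₁, e₃.left_inv hk₃] using h1⟩ p hp
  -- the first multiplication
  obtain ⟨q₁, hq₁, N₁, hN₁, H₁⟩ := locLip (f := fun z : W × W => e₁ (e₁.symm z.1 * e.symm z.2))
    (mul_dom S) (S.smooth_mul e₁ he₁ e he e₁ he₁ 1) (x₀ := (e₁ k₀, e 1))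
    ⟨e₁.map_source hk₁, e.map_source h1, by
      simpa [e₁.left_inv hk₁, e.left_inv h1] using hk₁⟩
    (q₂.comp (LinearMap.inl ℝ W W)) (hq₂.comp (continuous_id.prodMk continuous_const))
  have c1 : ContinuousAt e₁ k₀ := e₁.continuousAt hk₁
  have c3 : ContinuousAt (fun k : H => e₃ k⁻¹) k₀ :=
    ContinuousAt.comp (f := fun k : H => k⁻¹) (g := e₃) (e₃.continuousAt hk₃) continuous_inv.continuousAt
  have ce : ContinuousAt e 1 := e.continuousAt h1
  have hev : ∀ᶠ x : H × H in 𝓝 (k₀, (1 : H)), x.1 ∈ e₁.source ∧ x.1⁻¹ ∈ e₃.source ∧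
      x.2 ∈ e.source ∧ x.1 * x.2 ∈ e₁.source ∧ x.1 * x.2 * x.1⁻¹ ∈ e.source ∧
      (e₁ x.1, e x.2) ∈ N₁ ∧ (e₁ (x.1 * x.2), e₃ x.1⁻¹) ∈ N₂ := by
    have t1 : Tendsto (fun x : H × H => x.1) (𝓝 (k₀, (1 : H))) (𝓝 k₀) := continuousAt_fst
    have t2 : Tendsto (fun x : H × H => x.2) (𝓝 (k₀, (1 : H))) (𝓝 1) := continuousAt_snd
    have t3 : Tendsto (fun x : H × H => x.1 * x.2) (𝓝 (k₀, (1 : H))) (𝓝 k₀) := by
      have := t1.mul t2
      rwa [mul_one] at this
    have t4 : Tendsto (fun x : H × H => x.1 * x.2 * x.1⁻¹) (𝓝 (k₀, (1 : H))) (𝓝 1) := by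
      have := t3.mul t1.inv
      rwa [mul_inv_cancel] at this
    have t5 : Tendsto (fun x : H × H => (e₁ x.1, e x.2)) (𝓝 (k₀, (1 : H))) (𝓝 (e₁ k₀, e 1)) := by
      rw [nhds_prod_eq (x := e₁ k₀)]
      exact (c1.tendsto.comp t1).prodMk (ce.tendsto.comp t2)
    have t6 : Tendsto (fun x : H × H => (e₁ (x.1 * x.2), e₃ x.1⁻¹)) (𝓝 (k₀, (1 : H)))
        (𝓝 (e₁ k₀, e₃ k₀⁻¹)) := by
      rw [nhds_prod_eq (x := e₁ k₀)]
      exact (c1.tendsto.comp t3).prodMk (c3.tendsto.comp t1)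
    filter_upwards [t1.eventually (e₁.open_source.mem_nhds hk₁),
      t1.inv.eventually (e₃.open_source.mem_nhds hk₃),
      t2.eventually (e.open_source.mem_nhds h1), t3.eventually (e₁.open_source.mem_nhds hk₁),
      t4.eventually (e.open_source.mem_nhds h1), t5.eventually hN₁, t6.eventually hN₂]
      with x a1 a2 a3 a4 a5 a6 a7
    exact ⟨a1, a2, a3, a4, a5, a6, a7⟩
  rw [nhds_prod_eq] at hev
  obtain ⟨P, hP, Q, hQ, hPQ⟩ := eventually_prod_iff.1 hev
  obtain ⟨q', hq'c, hq'⟩ := exists_chart_seminorm h1 h0 hQ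
  have hQ1 : Q 1 := hq' 1 h1 (by rw [h0, map_zero]; exact zero_lt_one)
  refine ⟨q₁.comp (LinearMap.inr ℝ W W) + q', ?_, {k | P k}, hP, fun k hk m hm hqm => ?_⟩
  · exact (hq₁.comp (continuous_const.prodMk continuous_id)).add hq'c
  have hqq : (q₁.comp (LinearMap.inr ℝ W W) + q') (e m) = q₁ (0, e m) + q' (e m) := rfl
  rw [hqq] at hqm ⊢
  have hq'm : q' (e m) < 1 := by
    have := apply_nonneg q₁ ((0 : W), e m)
    linarith
  obtain ⟨b1, b2, b3, b4, b5, b6, b7⟩ := hPQ hk (hq' m hm hq'm)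
  obtain ⟨-, -, -, -, -, b6', b7'⟩ := hPQ hk hQ1
  simp only [mul_one] at b1 b2 b3 b4 b5 b6 b7 b6' b7'
  refine ⟨b5, ?_⟩
  have g1 := H₂ _ b7 _ b7'
  simp only [e₁.left_inv b4, e₃.left_inv b2, e₁.left_inv b1, mul_inv_cancel, h0, sub_zero] at g1
  have g2 := H₁ _ b6 _ b6'
  simp only [e₁.left_inv b1, e.left_inv b3, e.left_inv h1, mul_one] at g2
  have g3 : ((e₁ (k * m), e₃ k⁻¹) : W × W) - (e₁ k, e₃ k⁻¹) =
      LinearMap.inl ℝ W W (e₁ (k * m) - e₁ k) := by
    ext <;> simp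
  have g4 : ((e₁ k, e m) : W × W) - (e₁ k, e 1) = (0, e m) := by
    ext <;> simp [h0]
  rw [g3] at g1
  rw [g4] at g2
  have g5 : (q₂.comp (LinearMap.inl ℝ W W)) (e₁ (k * m) - e₁ k) =
      q₂ (LinearMap.inl ℝ W W (e₁ (k * m) - e₁ k)) := rfl
  rw [g5] at g2
  have := apply_nonneg q' (e m)
  linarith

open Classical in
/-- The length of an element. -/
noncomputable def pl (e : OpenPartialHomeomorph H W) (p : Seminorm ℝ W) (ω : ℝ → ℝ) (k : H) : ℝ :=
  if k ∈ e.source ∧ p (e k) < 1 then min 1 (ω (p (e k))) else 1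

theorem pl_nonneg (e : OpenPartialHomeomorph H W) (p : Seminorm ℝ W) {ω : ℝ → ℝ}
    (hω : IsModulus ω) (k : H) : 0 ≤ pl e p ω k := by
  unfold pl
  split_ifs
  · exact le_min zero_le_one (hω.2.1 _)
  · exact zero_le_one

theorem pl_le_one (e : OpenPartialHomeomorph H W) (p : Seminorm ℝ W) (ω : ℝ → ℝ) (k : H) :
    pl e p ω k ≤ 1 := by
  unfold pl
  split_ifs
  · exact min_le_left _ _
  · exact le_rfl

theorem pl_lt {e : OpenPartialHomeomorph H W} {p : Seminorm ℝ W} {ω : ℝ → ℝ} {k : H}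
    (h : pl e p ω k < 1) : k ∈ e.source ∧ p (e k) < 1 ∧ ω (p (e k)) = pl e p ω k := by
  unfold pl at h ⊢
  split_ifs at h ⊢ with hk
  · refine ⟨hk.1, hk.2, ?_⟩
    rcases min_lt_iff.1 h with h' | h'
    · exact absurd h' (lt_irrefl _)
    · rw [min_eq_right h'.le]
  · exact absurd h (lt_irrefl _)

theorem tendsto_pl {e : OpenPartialHomeomorph H W} (h1 : (1 : H) ∈ e.source) (h0 : e 1 = 0)
    {p : Seminorm ℝ W} (hp : Continuous p) {ω : ℝ → ℝ} (hω : IsModulus ω) :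
    Tendsto (pl e p ω) (𝓝 1) (𝓝 0) := by
  have h2 : Tendsto (fun k => p (e k)) (𝓝 1) (𝓝 0) := by
    have := (hp.tendsto (e 1)).comp (e.continuousAt h1)
    rwa [h0, map_zero] at this
  have h3 : Tendsto (fun k => ω (p (e k))) (𝓝 1) (𝓝 0) := by
    refine hω.2.2.comp (tendsto_nhdsWithin_iff.2 ⟨h2, Eventually.of_forall fun k => ?_⟩)
    exact apply_nonneg p _
  refine tendsto_of_tendsto_of_tendsto_of_le_of_le' tendsto_const_nhds h3
    (Eventually.of_forall fun k => pl_nonneg e p hω k) ?_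
  filter_upwards [e.open_source.mem_nhds h1, h2.eventually_lt_const zero_lt_one] with k hk hk'
  unfold pl
  rw [if_pos ⟨hk, hk'⟩]
  exact min_le_right _ _

theorem pl_conj (S : LieStr W H) {e : OpenPartialHomeomorph H W} (he : e ∈ S.atlas)
    (h1 : (1 : H) ∈ e.source) (h0 : e 1 = 0) {ω : ℝ → ℝ} (hω : IsModulus ω) (k₀ : H)
    (p : Seminorm ℝ W) (hp : Continuous p) :
    ∃ q : Seminorm ℝ W, Continuous q ∧ ∃ N ∈ 𝓝 k₀, ∀ k ∈ N, ∀ m,
      pl e p ω (k * m * k⁻¹) ≤ pl e q ω m := by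
  obtain ⟨q, hqc, N, hN, h⟩ := conj_est S he h1 h0 k₀ p hp
  refine ⟨q, hqc, N, hN, fun k hk m => ?_⟩
  by_cases hm : m ∈ e.source ∧ q (e m) < 1
  · obtain ⟨h2, h3⟩ := h k hk m hm.1 hm.2
    unfold pl
    rw [if_pos hm, if_pos ⟨h2, h3.trans_lt hm.2⟩]
    exact min_le_min le_rfl (hω.1 h3)
  · have : pl e q ω m = 1 := by
      unfold pl
      rw [if_neg hm]
    rw [this]
    exact pl_le_one e p ω _

end

end Pool.Agent.L7h49.EP
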