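import Mathlib

/-!
# Bastiani calculus and locally convex Lie groups

Definitions for the problem MP_862e0f_al.
-/

open Filter Topology Set

namespace Pool.Agent.L7h49.EP

universe u v w x y

/-- The derivative of `f` at `x` in the direction `v` is `L`. -/
def DirDeriv {E : Type u} {F : Type v} [AddCommGroup E] [Module ℝ E] [TopologicalSpace E]
    [AddCommGroup F] [Module ℝ F] [TopologicalSpace F] (f : E → F) (L : F) (x v : E) : Prop :=
  Tendsto (fun t : ℝ => t⁻¹ • (f (x + t • v) - f x)) (𝓝[≠] 0) (𝓝 L)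

/-- `f` is of class `C^n` on the open set `U` in the sense of Bastiani (Keller's `C^n_c`): all
directional derivatives exist on `U` and are given by a function `f'` of class `C^(n-1)` on
`U × E`; `C^0` means continuous. -/
def Cn : ℕ → ∀ {E : Type u} {F : Type v} [AddCommGroup E] [Module ℝ E] [TopologicalSpace E]
    [AddCommGroup F] [Module ℝ F] [TopologicalSpace F], (E → F) → Set E → Prop
  | 0, _, _, _, _, _, _, _, _, f, U => ContinuousOn f U
  | n + 1, E, F, _, _, _, _, _, _, f, U => ContinuousOn f U ∧ ∃ f' : E × E → F,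
      (∀ x ∈ U, ∀ v, DirDeriv f (f' (x, v)) x v) ∧ Cn n f' (U ×ˢ (univ : Set E))

/-- Smooth (`C^∞`) maps on an open set. -/
def Smooth {E : Type u} {F : Type v} [AddCommGroup E] [Module ℝ E] [TopologicalSpace E]
    [AddCommGroup F] [Module ℝ F] [TopologicalSpace F] (f : E → F) (U : Set E) : Prop :=
  ∀ n : ℕ, Cn n f U

/-- A Lie group structure, modelled on the locally convex space `W`, on the topological group
`K`. -/
structure LieStr (W : Type v) [AddCommGroup W] [Module ℝ W] [TopologicalSpace W]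
    (K : Type w) [Group K] [TopologicalSpace K] where
  /-- the charts -/
  atlas : Set (OpenPartialHomeomorph K W)
  /-- the charts cover the group -/
  cover : ∀ k : K, ∃ e ∈ atlas, k ∈ e.source
  /-- the changes of charts are smooth -/
  compat : ∀ e ∈ atlas, ∀ e' ∈ atlas,
    Smooth (fun z => e' (e.symm z)) {z | z ∈ e.target ∧ e.symm z ∈ e'.source}
  /-- the multiplication is smooth -/
  smooth_mul : ∀ e ∈ atlas, ∀ e' ∈ atlas, ∀ e'' ∈ atlas,
    Smooth (fun z : W × W => e'' (e.symm z.1 * e'.symm z.2))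
      {z | z.1 ∈ e.target ∧ z.2 ∈ e'.target ∧ e.symm z.1 * e'.symm z.2 ∈ e''.source}
  /-- the inversion is smooth -/
  smooth_inv : ∀ e ∈ atlas, ∀ e' ∈ atlas,
    Smooth (fun z => e' (e.symm z)⁻¹) {z | z ∈ e.target ∧ (e.symm z)⁻¹ ∈ e'.source}

/-- Smooth homomorphisms of Lie groups. -/
def SmoothHom {W : Type v} [AddCommGroup W] [Module ℝ W] [TopologicalSpace W]
    {K : Type w} [Group K] [TopologicalSpace K] (S : LieStr W K)
    {W' : Type x} [AddCommGroup W'] [Module ℝ W'] [TopologicalSpace W']
    {K' : Type y} [Group K'] [TopologicalSpace K'] (S' : LieStr W' K') (g : K →* K') : Prop :=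
  Continuous g ∧ ∀ e ∈ S.atlas, ∀ e' ∈ S'.atlas,
    Smooth (fun z => e' (g (e.symm z))) {z | z ∈ e.target ∧ g (e.symm z) ∈ e'.source}

end Pool.Agent.L7h49.EP
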