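import Pool.Agent.L7h49.EP.Jet

/-!
# Periodic maps
-/

open Filter Topology Set

namespace Pool.Agent.L7h49.EP

universe u v

/-- The vectors of `S` are sums of `N` elements of `D` of norm at most `δ`, such that `N * δ ^ k`
is small and the partial sums have norm at most `1`. -/
def Frag {E : Type u} [NormedAddCommGroup E] (D : AddSubgroup E) (S : Set E) (k : ℕ) : Prop :=
  ∀ v ∈ S, ∀ ε > 0, ∃ (N : ℕ) (d : ℕ → E) (δ : ℝ), (∀ i, d i ∈ D) ∧
    ∑ i ∈ Finset.range N, d i = v ∧ 0 ≤ δ ∧ δ ≤ ε ∧ (∀ i, ‖d i‖ ≤ δ) ∧ N * δ ^ k ≤ ε ∧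
    ∀ j ≤ N, ‖∑ i ∈ Finset.range j, d i‖ ≤ 1

section Real

/-- Rolle: if each function is the derivative of the previous one and the functions `1, …, k - 1`
take the same values at `0` and `1`, then a bound for the last is a bound for all. -/
theorem rolle_chain (k : ℕ) (ψ : ℕ → ℝ → ℝ) (M : ℝ)
    (hd : ∀ j < k, ∀ t ∈ Icc (0 : ℝ) 1, HasDerivAt (ψ j) (ψ (j + 1) t) t)
    (hp : ∀ j < k, ψ j 0 = ψ j 1) (hM : ∀ t ∈ Icc (0 : ℝ) 1, |ψ k t| ≤ M) (hk : 1 ≤ k) :
    ∀ t ∈ Icc (0 : ℝ) 1, |ψ 0 t - ψ 0 0| ≤ M := by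
  have key : ∀ j, 1 ≤ j → j ≤ k → ∀ t ∈ Icc (0 : ℝ) 1, |ψ j t| ≤ M := by
    intro j h1 hj
    induction hm : k - j generalizing j with
    | zero =>
      have : j = k := by omega
      subst this
      exact hM
    | succ m ih =>
      have ih' := ih (j + 1) (by omega) (by omega) (by omega)
      intro t ht
      obtain ⟨t0, ht0, h0⟩ : ∃ t0 ∈ Ioo (0 : ℝ) 1, ψ j t0 = 0 := by
        have hc : ContinuousOn (ψ (j - 1)) (Icc 0 1) := fun t ht =>
          (hd (j - 1) (by omega) t ht).continuousAt.continuousWithinAt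
        obtain ⟨t0, h1', h2'⟩ := exists_hasDerivAt_eq_zero (f := ψ (j - 1)) (f' := ψ j)
          (a := 0) (b := 1) one_pos hc (hp (j - 1) (by omega)) (fun t ht => by
            have := hd (j - 1) (by omega) t (Ioo_subset_Icc_self ht)
            rwa [Nat.sub_add_cancel h1] at this)
        exact ⟨t0, h1', h2'⟩
      have h3 : ‖ψ j t - ψ j t0‖ ≤ M * ‖t - t0‖ :=
        Convex.norm_image_sub_le_of_norm_hasDerivWithin_le (s := Icc (0 : ℝ) 1)
          (f := ψ j) (f' := ψ (j + 1)) (fun s hs => (hd j (by omega) s hs).hasDerivWithinAt)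
          (fun s hs => ih' s hs) (convex_Icc 0 1) (Ioo_subset_Icc_self ht0) ht
      rw [h0, sub_zero, Real.norm_eq_abs, Real.norm_eq_abs] at h3
      have h4 : |t - t0| ≤ 1 := by
        rw [abs_le]; constructor <;> linarith [ht.1, ht.2, ht0.1, ht0.2]
      have hM0 : 0 ≤ M := (abs_nonneg _).trans (hM 0 ⟨le_rfl, zero_le_one⟩)
      nlinarith [mul_le_mul_of_nonneg_left h4 hM0]
  intro t ht
  have h3 : ‖ψ 0 t - ψ 0 0‖ ≤ M * ‖t - 0‖ :=
    Convex.norm_image_sub_le_of_norm_hasDerivWithin_le (s := Icc (0 : ℝ) 1)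
      (f := ψ 0) (f' := ψ 1) (fun s hs => (hd 0 (by omega) s hs).hasDerivWithinAt)
      (fun s hs => key 1 le_rfl hk s hs) (convex_Icc 0 1) ⟨le_rfl, zero_le_one⟩ ht
  rw [Real.norm_eq_abs, Real.norm_eq_abs, sub_zero] at h3
  have h4 : |t| ≤ 1 := by
    rw [abs_le]; constructor <;> linarith [ht.1, ht.2]
  have hM0 : 0 ≤ M := (abs_nonneg _).trans (hM 0 ⟨le_rfl, zero_le_one⟩)
  nlinarith [mul_le_mul_of_nonneg_left h4 hM0]

end Real

section Per

variable {E : Type u} {F : Type v} [NormedAddCommGroup E] [NormedSpace ℝ E]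
    [AddCommGroup F] [Module ℝ F] [TopologicalSpace F] [IsTopologicalAddGroup F]
    [ContinuousSMul ℝ F] [T2Space F]

/-- The derivatives of order `k` of a scalar component are bounded by `(C * ‖v‖) ^ k`. -/
theorem Jet.bound {n : ℕ} {f : E → F} {U : Set E} {T : ℕ → E × E → F} (hT : Jet n f U T)
    (hU : IsOpen U) {k : ℕ} (hk : 1 ≤ k) (hkn : k ≤ n) {x₀ : E} (hx₀ : x₀ ∈ U)
    (l : F →L[ℝ] ℝ) : ∃ r > 0, ∃ C ≥ 0, Metric.ball x₀ r ⊆ U ∧
      ∀ x ∈ Metric.ball x₀ r, ∀ v, |l (T k (x, v))| ≤ (C * ‖v‖) ^ k := by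
  have h0 : T k (x₀, 0) = 0 := by
    have := hT.smul hU hkn hx₀ 0 0
    rwa [smul_zero, zero_pow (by omega), zero_smul] at this
  have hc : ContinuousAt (T k) (x₀, 0) :=
    (hT.cont k hkn).continuousAt ((hU.prod isOpen_univ).mem_nhds ⟨hx₀, mem_univ _⟩)
  have hc' : ContinuousAt (fun z => l (T k z)) (x₀, 0) := l.continuous.continuousAt.comp hc
  have h1 : ∀ᶠ z in 𝓝 (x₀, (0 : E)), |l (T k z)| < 1 := by
    have h2 := hc'.abs
    have h3 : (fun z => |l (T k z)|) (x₀, (0 : E)) < 1 := by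
      change |l (T k (x₀, 0))| < 1
      rw [h0, map_zero, abs_zero]
      exact one_pos
    exact h2.eventually_lt_const h3
  obtain ⟨r1, hr1, h2⟩ := Metric.eventually_nhds_iff.1 h1
  obtain ⟨r2, hr2, h3⟩ := Metric.isOpen_iff.1 hU x₀ hx₀
  refine ⟨min r1 r2, lt_min hr1 hr2, 2 / r1, by positivity,
    (Metric.ball_subset_ball (min_le_right _ _)).trans h3, ?_⟩
  intro x hx v
  have hxU : x ∈ U := h3 (Metric.ball_subset_ball (min_le_right _ _) hx)
  have hx1 : dist x x₀ < r1 := lt_of_lt_of_le hx (min_le_left _ _)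
  rcases eq_or_ne v 0 with rfl | hv
  · have := hT.smul hU hkn hxU (0 : E) 0
    rw [smul_zero, zero_pow (by omega), zero_smul] at this
    rw [this, map_zero, abs_zero]
    positivity
  have hv' : 0 < ‖v‖ := norm_pos_iff.2 hv
  set c : ℝ := r1 / (2 * ‖v‖) with hc
  have hc0 : 0 < c := by positivity
  have h4 : |l (T k (x, c • v))| < 1 := by
    refine h2 ?_
    rw [Prod.dist_eq, max_lt_iff]
    refine ⟨hx1, ?_⟩
    rw [dist_zero_right, norm_smul, Real.norm_eq_abs, abs_of_pos hc0, hc]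
    have : r1 / (2 * ‖v‖) * ‖v‖ = r1 / 2 := by field_simp
    rw [this]; linarith
  rw [hT.smul hU hkn hxU v c, map_smul, smul_eq_mul, abs_mul, abs_of_pos (pow_pos hc0 k)] at h4
  have h5 : 2 / r1 * ‖v‖ = c⁻¹ := by rw [hc]; field_simp
  rw [h5, inv_pow, ← one_div, le_div_iff₀ (pow_pos hc0 k), mul_comm]
  exact h4.le

/-- The derivative of a periodic map vanishes in the directions of `S`. -/
theorem per_deriv {k : ℕ} (hk : 1 ≤ k) {f : E → F} {U : Set E} {T : ℕ → E × E → F}
    (hT : Jet k f U T) (hU : IsOpen U) {D : AddSubgroup E} (hD : ∀ d ∈ D, ∀ y, f (y + d) = f y)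
    {S : Set E} (hS : Frag D S k) {x₀ : E} (hx₀ : x₀ ∈ U) (l : F →L[ℝ] ℝ) {v : E}
    (hv : v ∈ S) : l (T 1 (x₀, v)) = 0 := by
  obtain ⟨r, hr, C, hC, hrU, hb⟩ := hT.bound hU hk le_rfl hx₀ l
  -- one step
  have step : ∀ x ∈ Metric.ball x₀ (r / 2), ∀ d ∈ D, ‖d‖ < r / 2 → ∀ t ∈ Icc (0 : ℝ) 1,
      |l (f (x + t • d)) - l (f x)| ≤ (C * ‖d‖) ^ k := by
    intro x hx d hd hdr
    have hmem : ∀ t ∈ Icc (0 : ℝ) 1, x + t • d ∈ Metric.ball x₀ r := by
      intro t ht
      rw [Metric.mem_ball, dist_eq_norm] at hx ⊢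
      calc ‖x + t • d - x₀‖ = ‖(x - x₀) + t • d‖ := by congr 1; abel
        _ ≤ ‖x - x₀‖ + ‖t • d‖ := norm_add_le _ _
        _ ≤ ‖x - x₀‖ + ‖d‖ := by
          gcongr
          rw [norm_smul, Real.norm_eq_abs, abs_of_nonneg ht.1]
          exact mul_le_of_le_one_left (norm_nonneg _) ht.2
        _ < r / 2 + r / 2 := add_lt_add hx hdr
        _ = r := by ring
    have hder : ∀ j < k, ∀ t ∈ Icc (0 : ℝ) 1,
        HasDerivAt (fun t : ℝ => l (T j (x + t • d, d))) (l (T (j + 1) (x + t • d, d))) t := by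
      intro j hj t ht
      have h1 := hT.deriv j hj (x + t • d) (hrU (hmem t ht)) d
      have h2 := (l.continuous.tendsto _).comp h1
      rw [hasDerivAt_iff_tendsto_slope_zero]
      refine h2.congr fun s => ?_
      simp only [Function.comp, map_smul, map_sub, add_smul, add_assoc]
    have hper : ∀ j < k, l (T j (x + (0 : ℝ) • d, d)) = l (T j (x + (1 : ℝ) • d, d)) := by
      intro j hj
      have h1 := hmem 0 ⟨le_rfl, zero_le_one⟩
      have h2 := hmem 1 ⟨zero_le_one, le_rfl⟩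
      rw [zero_smul, add_zero] at h1 ⊢
      rw [one_smul] at h2 ⊢
      rw [hT.periodic hU (hD d hd) hj.le (hrU h1) (hrU h2)]
    have h3 := rolle_chain k (fun j t => l (T j (x + t • d, d))) ((C * ‖d‖) ^ k) hder hper
      (fun t ht => hb _ (hmem t ht) d) hk
    intro t ht
    have h4 := h3 t ht
    simpa [hT.zero] using h4
  -- the function is constant on a segment
  have hconst : ∀ t : ℝ, 0 < t → t < min 1 (r / 2) → l (f (x₀ + t • v)) = l (f x₀) := by
    intro t ht0 ht1
    have ht1' : t ≤ 1 := (ht1.trans_le (min_le_left _ _)).le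
    have htr : t < r / 2 := ht1.trans_le (min_le_right _ _)
    by_contra hne
    have hpos : 0 < |l (f (x₀ + t • v)) - l (f x₀)| := abs_pos.2 (sub_ne_zero.2 hne)
    set a := |l (f (x₀ + t • v)) - l (f x₀)| with ha
    obtain ⟨N, d, δ, hdD, hsum, hδ0, hδε, hdδ, hN, hpart⟩ := hS v hv
      (min (r / 4) (a / (2 * (C ^ k + 1)))) (by positivity)
    have hδr : δ < r / 2 := by
      have := hδε.trans (min_le_left _ _)
      linarith
    have h1 : ∀ j ≤ N, |l (f (x₀ + t • ∑ i ∈ Finset.range j, d i)) - l (f x₀)|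
        ≤ j * (C * δ) ^ k := by
      intro j
      induction j with
      | zero => intro _; simp
      | succ j ih =>
        intro hj
        have h2 := ih (by omega)
        have hxj : x₀ + t • ∑ i ∈ Finset.range j, d i ∈ Metric.ball x₀ (r / 2) := by
          rw [Metric.mem_ball, dist_eq_norm, add_sub_cancel_left, norm_smul, Real.norm_eq_abs,
            abs_of_pos ht0]
          calc t * ‖∑ i ∈ Finset.range j, d i‖ ≤ t * 1 := by
                gcongr
                exact hpart j (by omega)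
            _ < r / 2 := by linarith
        have h3 := step _ hxj (d j) (hdD j) ((hdδ j).trans_lt hδr) t ⟨ht0.le, ht1'⟩
        have h4 : (C * ‖d j‖) ^ k ≤ (C * δ) ^ k := by
          gcongr
          exact hdδ j
        rw [Finset.sum_range_succ, smul_add, ← add_assoc]
        push_cast
        calc _ = |(l (f (x₀ + t • ∑ i ∈ Finset.range j, d i + t • d j)) -
                l (f (x₀ + t • ∑ i ∈ Finset.range j, d i))) +
                (l (f (x₀ + t • ∑ i ∈ Finset.range j, d i)) - l (f x₀))| := by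
              congr 1; ring
          _ ≤ _ := abs_add_le _ _
          _ ≤ (C * δ) ^ k + j * (C * δ) ^ k := by linarith
          _ = _ := by ring
    have h2 := h1 N le_rfl
    rw [hsum, ← ha, mul_pow] at h2
    have h3 : N * δ ^ k ≤ a / (2 * (C ^ k + 1)) := hN.trans (min_le_right _ _)
    have hCk : 0 ≤ C ^ k := by positivity
    have h4 : (N : ℝ) * (C ^ k * δ ^ k) ≤ C ^ k * (a / (2 * (C ^ k + 1))) := by
      calc (N : ℝ) * (C ^ k * δ ^ k) = C ^ k * (N * δ ^ k) := by ring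
        _ ≤ _ := by gcongr
    have h5 : C ^ k * (a / (2 * (C ^ k + 1))) < a := by
      rw [mul_div_assoc', div_lt_iff₀ (by positivity)]
      nlinarith
    linarith
  have h1 := hT.deriv 0 (by omega) x₀ hx₀ v
  have h2 := (l.continuous.tendsto _).comp h1
  have h3 : Tendsto (fun t : ℝ => l (t⁻¹ • (T 0 (x₀ + t • v, v) - T 0 (x₀, v)))) (𝓝[>] 0)
      (𝓝 (l (T 1 (x₀, v)))) :=
    h2.mono_left (nhdsWithin_mono _ fun t (ht : 0 < t) => ht.ne')
  refine tendsto_nhds_unique h3 (tendsto_const_nhds.congr' ?_)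
  have : Ioo (0 : ℝ) (min 1 (r / 2)) ∈ 𝓝[>] (0 : ℝ) := Ioo_mem_nhdsGT (by positivity)
  filter_upwards [this] with t ht
  rw [map_smul, map_sub, hT.zero, hT.zero, hconst t ht.1 ht.2, sub_self, smul_zero]


variable [LocallyConvexSpace ℝ F]

theorem eq_of_dual {x y : F} (h : ∀ l : F →L[ℝ] ℝ, l x = l y) : x = y := by
  by_contra hne
  obtain ⟨l, hl⟩ := SeparatingDual.exists_separating_of_ne (R := ℝ) hne
  exact hl (h l)

/-- A periodic map of class `C^k` is locally constant. -/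
theorem per_const (hSt : S_STRONG.{u, v}) {k : ℕ} (hk : 1 ≤ k) {f : E → F} {U : Set E}
    (hf : Cn k f U) (hU : IsOpen U) {D : AddSubgroup E} (hD : ∀ d ∈ D, ∀ y, f (y + d) = f y)
    {S : Set E} (hS : Frag D S k) (hd : Dense (Submodule.span ℝ S : Set E)) {x₀ : E}
    (hx₀ : x₀ ∈ U) : ∀ᶠ y in 𝓝 x₀, f y = f x₀ := by
  obtain ⟨T, hT⟩ := exists_jet k hf
  have hdir : ∀ x ∈ U, ∀ v, DirDeriv f (T 1 (x, v)) x v := by
    intro x hx v
    have := hT.deriv 0 (by omega) x hx v
    simp only [hT.zero] at this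
    exact this
  have hzero : ∀ x ∈ U, ∀ v, T 1 (x, v) = 0 := by
    intro x hx
    have hadd : ∀ v w, T 1 (x, v + w) = T 1 (x, v) + T 1 (x, w) := by
      intro v w
      have h1 := hdir x hx (v + w)
      have h2 := hdir x hx v
      have h3 := hSt E F f U (T 1) hU hdir (hT.cont 1 hk) x hx w
      have h4 : Tendsto (fun t : ℝ => (t, (x + t • v, w))) (𝓝[≠] 0)
          (𝓝[≠] 0 ×ˢ (𝓝 x ×ˢ 𝓝 w)) :=
        tendsto_id.prodMk ((tendsto_line x v).prodMk tendsto_const_nhds)
      refine tendsto_nhds_unique h1 ((h2.add (h3.comp h4)).congr fun t => ?_)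
      simp only [Function.comp, ← smul_add]
      congr 1
      rw [smul_add, ← add_assoc]
      abel
    have hsmul : ∀ (c : ℝ) v, T 1 (x, c • v) = c • T 1 (x, v) := by
      intro c v
      have := hT.smul hU hk hx v c
      rwa [pow_one] at this
    let L : E →ₗ[ℝ] F :=
      { toFun := fun v => T 1 (x, v), map_add' := hadd, map_smul' := hsmul }
    have hLc : Continuous fun v => T 1 (x, v) := by
      rw [← continuousOn_univ]
      exact (hT.cont 1 hk).comp (Continuous.continuousOn (by fun_prop))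
        (fun v _ => ⟨hx, mem_univ _⟩)
    have h1 : Submodule.span ℝ S ≤ LinearMap.ker L := by
      rw [Submodule.span_le]
      intro v hv
      rw [SetLike.mem_coe, LinearMap.mem_ker]
      refine eq_of_dual fun l => ?_
      rw [map_zero]
      exact per_deriv hk hT hU hD hS hx l hv
    have h2 : IsClosed (LinearMap.ker L : Set E) := by
      have : (LinearMap.ker L : Set E) = (fun v => T 1 (x, v)) ⁻¹' {0} := rfl
      rw [this]
      exact isClosed_singleton.preimage hLc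
    intro v
    have h3 : v ∈ closure (Submodule.span ℝ S : Set E) := hd v
    have h4 : v ∈ (LinearMap.ker L : Set E) := (closure_minimal h1 h2) h3
    exact h4
  obtain ⟨r, hr, hrU⟩ := Metric.isOpen_iff.1 hU x₀ hx₀
  filter_upwards [Metric.ball_mem_nhds x₀ hr] with y hy
  refine eq_of_dual fun l => ?_
  have hmem : ∀ s ∈ Icc (0 : ℝ) 1, x₀ + s • (y - x₀) ∈ U := by
    intro s hs
    refine hrU ?_
    rw [Metric.mem_ball, dist_eq_norm, add_sub_cancel_left, norm_smul, Real.norm_eq_abs,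
      abs_of_nonneg hs.1]
    rw [Metric.mem_ball, dist_eq_norm] at hy
    nlinarith [hs.2, norm_nonneg (y - x₀)]
  have hder : ∀ s ∈ Icc (0 : ℝ) 1,
      HasDerivWithinAt (fun s : ℝ => l (f (x₀ + s • (y - x₀)))) 0 (Icc 0 1) s := by
    intro s hs
    have h1 := hdir _ (hmem s hs) (y - x₀)
    rw [hzero _ (hmem s hs)] at h1
    have h2 := (l.continuous.tendsto _).comp h1
    rw [map_zero] at h2
    refine HasDerivAt.hasDerivWithinAt ?_
    rw [hasDerivAt_iff_tendsto_slope_zero]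
    refine h2.congr fun t => ?_
    simp only [Function.comp, map_smul, map_sub, add_smul, add_assoc]
  have h3 := Convex.norm_image_sub_le_of_norm_hasDerivWithin_le (s := Icc (0 : ℝ) 1) (C := 0)
    hder (fun s _ => by simp) (convex_Icc 0 1) (x := 0) (y := 1)
    ⟨le_rfl, zero_le_one⟩ ⟨zero_le_one, le_rfl⟩
  rw [zero_mul, zero_smul, one_smul, add_zero, add_sub_cancel] at h3
  have h4 := norm_le_zero_iff.1 h3
  linarith [h4]

end Per

end Pool.Agent.L7h49.EP
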