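import Pool.Agent.L7h49.EP.Lp
import Pool.Agent.L7h49.EP.Per

/-!
# Integer-valued step functions with rational jumps
-/

open Filter Topology Set MeasureTheory
open scoped ENNReal

namespace Pool.Agent.L7h49.EP

/-- The free abelian group with basis `ℚ`. -/
def FreeQ : Type := Multiplicative (ℚ →₀ ℤ)

noncomputable instance : CommGroup FreeQ := inferInstanceAs (CommGroup (Multiplicative (ℚ →₀ ℤ)))
instance : Countable FreeQ := inferInstanceAs (Countable (ℚ →₀ ℤ))
/-- It carries the discrete topology. -/
instance : TopologicalSpace FreeQ := ⊥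
instance : DiscreteTopology FreeQ := ⟨rfl⟩

/-- The additive homomorphism which maps the basis vector `q` to the indicator function of
`(-∞, q)`. -/
noncomputable def stepAdd (p : ℝ≥0∞) : (ℚ →₀ ℤ) →+ LpI p :=
  Finsupp.liftAddHom fun q : ℚ =>
    zmultiplesHom (LpI p) (ind p (A := Iio (q : ℝ)) measurableSet_Iio)

/-- The homomorphism which maps the basis vector `q` to the indicator function of
`(-∞, q)`, as a homomorphism of multiplicatively written groups. -/
noncomputable def stepHom (p : ℝ≥0∞) : FreeQ →* Multiplicative (LpI p) :=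
  AddMonoidHom.toMultiplicative (stepAdd p)

theorem stepAdd_single (p : ℝ≥0∞) (q : ℚ) :
    stepAdd p (Finsupp.single q 1) = ind p (A := Iio (q : ℝ)) measurableSet_Iio := by
  simp [stepAdd]

theorem range_le (p : ℝ≥0∞) : (stepAdd p).range ≤ IntVal p := by
  rintro _ ⟨m, rfl⟩
  induction m using Finsupp.induction_linear with
  | zero => rw [map_zero]; exact zero_mem _
  | add f g hf hg => rw [map_add]; exact add_mem hf hg
  | single q n =>
    have : stepAdd p (Finsupp.single q n) =
        n • ind p (A := Iio (q : ℝ)) measurableSet_Iio := by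
      simp [stepAdd]
    rw [this]
    exact zsmul_mem (ind_mem p _) n

/-- The indicator functions of `(-∞, q)`. -/
def SQ (p : ℝ≥0∞) : Set (LpI p) :=
  range fun q : ℚ => ind p (A := Iio (q : ℝ)) measurableSet_Iio

theorem ind_congr (p : ℝ≥0∞) {A B : Set ℝ} (hA : MeasurableSet A) (hB : MeasurableSet B)
    (h : ∀ x, 0 ≤ x → x < 1 → (x ∈ A ↔ x ∈ B)) : ind p hA = ind p hB := by
  unfold ind
  refine Lp.ext ?_
  have h1 : ∀ᵐ x ∂(volume.restrict (Icc (0 : ℝ) 1)), x ∈ Icc (0 : ℝ) 1 :=
    ae_restrict_mem measurableSet_Icc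
  have h2 : ∀ᵐ x ∂(volume.restrict (Icc (0 : ℝ) 1)), x ≠ 1 :=
    ae_restrict_of_ae (Measure.ae_ne volume 1)
  filter_upwards [indicatorConstLp_coeFn (p := p) (hs := hB)
      (hμs := measure_ne_top (volume.restrict (Icc (0 : ℝ) 1)) _) (c := (1 : ℝ)),
    indicatorConstLp_coeFn (p := p) (hs := hA)
      (hμs := measure_ne_top (volume.restrict (Icc (0 : ℝ) 1)) _) (c := (1 : ℝ)), h1, h2]
    with x h3 h4 h5 h6
  rw [h3, h4]
  have h7 := h x h5.1 (lt_of_le_of_ne h5.2 h6)
  by_cases h8 : x ∈ A
  · rw [indicator_of_mem h8, indicator_of_mem (h7.1 h8)]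
  · rw [indicator_of_notMem h8, indicator_of_notMem (fun h => h8 (h7.2 h))]

theorem ind_empty (p : ℝ≥0∞) {A : Set ℝ} (hA : MeasurableSet A)
    (h : ∀ x, 0 ≤ x → x < 1 → x ∉ A) : ind p hA = 0 := by
  rw [ind_congr p hA MeasurableSet.empty (fun x h0 h1 => by simp [h x h0 h1])]
  unfold ind
  exact indicatorConstLp_empty

theorem ind_union (p : ℝ≥0∞) {A B : Set ℝ} (hA : MeasurableSet A) (hB : MeasurableSet B)
    (h : Disjoint A B) : ind p (hA.union hB) = ind p hA + ind p hB := by
  unfold ind
  rw [indicatorConstLp_disjoint_union hA hB _ _ h]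

theorem ind_compl (p : ℝ≥0∞) {A : Set ℝ} (hA : MeasurableSet A) :
    ind p hA.compl = ind p MeasurableSet.univ - ind p hA := by
  have h1 := ind_union p hA hA.compl disjoint_compl_right
  rw [eq_sub_iff_add_eq, add_comm, ← h1]
  exact ind_congr p _ _ (fun x _ _ => by simp)

theorem dense_SQ (p : ℝ≥0∞) [Fact (1 ≤ p)] (hp : p ≠ ⊤) :
    Dense (Submodule.span ℝ (SQ p) : Set (LpI p)) := by
  set M := (Submodule.span ℝ (SQ p)).topologicalClosure with hM
  have hQ : ∀ q : ℚ, ind p (A := Iio (q : ℝ)) measurableSet_Iio ∈ M := fun q =>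
    Submodule.le_topologicalClosure _ (Submodule.subset_span ⟨q, rfl⟩)
  have huniv : ind p MeasurableSet.univ ∈ M := by
    rw [ind_congr p MeasurableSet.univ (measurableSet_Iio (a := ((1 : ℚ) : ℝ)))
      (fun x _ h => by simpa using h)]
    exact hQ 1
  have hall : ∀ (A : Set ℝ) (hA : MeasurableSet A), ind p hA ∈ M := by
    intro A hA
    refine MeasurableSpace.induction_on_inter (C := fun A hA => ind p hA ∈ M)
      (s := ⋃ a : ℚ, {Iio (a : ℝ)}) ?_ Real.isPiSystem_Iio_rat ?_ ?_ ?_ ?_ A hA
    · rw [← Real.borel_eq_generateFrom_Iio_rat]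
      exact BorelSpace.measurable_eq
    · rw [ind_empty p _ (fun x _ _ => by simp)]
      exact zero_mem _
    · intro t ht
      obtain ⟨q, hq⟩ := mem_iUnion.1 ht
      rw [mem_singleton_iff] at hq
      subst hq
      exact hQ q
    · intro t ht h
      rw [ind_compl p ht]
      exact sub_mem huniv h
    · intro f hd hf hm
      have hpart : ∀ n, ind p (MeasurableSet.biUnion (Finset.range n).countable_toSet
          (fun i _ => hf i)) ∈ M := by
        intro n
        induction n with
        | zero =>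
          rw [ind_empty p _ (fun x _ _ => by simp)]
          exact zero_mem _
        | succ n ih =>
          have h1 : Disjoint (⋃ i ∈ (Finset.range n : Set ℕ), f i) (f n) := by
            rw [disjoint_iUnion₂_left]
            intro i hi
            exact hd (by
              have := Finset.mem_range.1 (Finset.mem_coe.1 hi)
              omega)
          have h2 := ind_union p (MeasurableSet.biUnion (Finset.range n).countable_toSet
            (fun i _ => hf i)) (hf n) h1
          rw [ind_congr p _ ((MeasurableSet.biUnion (Finset.range n).countable_toSet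
            (fun i _ => hf i)).union (hf n)) (fun x _ _ => by
              simp only [Finset.coe_range, mem_iUnion, mem_union, mem_Iio, exists_prop]
              constructor
              · rintro ⟨i, hi, hx⟩
                rcases Nat.lt_succ_iff_lt_or_eq.1 hi with h | rfl
                · exact Or.inl ⟨i, h, hx⟩
                · exact Or.inr hx
              · rintro (⟨i, hi, hx⟩ | hx)
                · exact ⟨i, by omega, hx⟩
                · exact ⟨n, by omega, hx⟩), h2]
          exact add_mem ih (hm n)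
      have hlim : Tendsto (fun n => ind p (MeasurableSet.biUnion
          (Finset.range n).countable_toSet (fun i _ => hf i))) atTop
          (𝓝 (ind p (MeasurableSet.iUnion hf))) := by
        unfold ind
        refine tendsto_indicatorConstLp_set hp ?_
        have h3 : Tendsto (fun n => (volume.restrict (Icc (0 : ℝ) 1))
            ((⋃ i, f i) \ (⋃ i ∈ (Finset.range n : Set ℕ), f i))) atTop (𝓝 0) := by
          have h4 : (⋂ n : ℕ, (⋃ i, f i) \ (⋃ i ∈ (Finset.range n : Set ℕ), f i)) = ∅ := by
            rw [eq_empty_iff_forall_notMem]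
            intro x hx
            rw [mem_iInter] at hx
            obtain ⟨i, hi⟩ := mem_iUnion.1 (hx 0).1
            refine (hx (i + 1)).2 ?_
            simp only [Finset.coe_range, mem_iUnion, mem_Iio, exists_prop]
            exact ⟨i, by omega, hi⟩
          have h5 := tendsto_measure_iInter_atTop (μ := volume.restrict (Icc (0 : ℝ) 1))
            (s := fun n : ℕ => (⋃ i, f i) \ (⋃ i ∈ (Finset.range n : Set ℕ), f i))
            (fun n => ((MeasurableSet.iUnion hf).diff
              (MeasurableSet.biUnion (Finset.range n).countable_toSet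
                (fun i _ => hf i))).nullMeasurableSet)
            (fun m n hmn => by
              refine sdiff_subset_sdiff_right ?_
              refine biUnion_subset_biUnion_left ?_
              simp only [Finset.coe_range]
              exact Iio_subset_Iio hmn)
            ⟨0, measure_ne_top _ _⟩
          rw [h4, measure_empty] at h5
          exact h5
        refine h3.congr fun n => ?_
        congr 1
        have h6 : (⋃ i ∈ (Finset.range n : Set ℕ), f i) ⊆ ⋃ i, f i := by
          intro x hx
          simp only [mem_iUnion] at hx ⊢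
          obtain ⟨i, _, hx⟩ := hx
          exact ⟨i, hx⟩
        rw [Set.symmDiff_def, sdiff_eq_empty.2 h6, empty_union]
      exact (Submodule.isClosed_topologicalClosure _).mem_of_tendsto hlim
        (Eventually.of_forall hpart)
  intro f
  refine Lp.induction hp (motive := fun f => f ∈ M) ?_ ?_ ?_ f
  · intro c s hs hμs
    have : (Lp.simpleFunc.indicatorConst p hs hμs.ne c : LpI p) = c • ind p hs := by
      rw [Lp.simpleFunc.coe_indicatorConst]
      unfold ind
      refine Lp.ext ?_
      filter_upwards [Lp.coeFn_smul c (indicatorConstLp p hs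
          (measure_ne_top (volume.restrict (Icc (0 : ℝ) 1)) s) (1 : ℝ)),
        indicatorConstLp_coeFn (p := p) (hs := hs) (hμs := hμs.ne) (c := c),
        indicatorConstLp_coeFn (p := p) (hs := hs)
          (hμs := measure_ne_top (volume.restrict (Icc (0 : ℝ) 1)) s) (c := (1 : ℝ))]
        with x h1 h2 h3
      rw [h1, h2, Pi.smul_apply, h3]
      by_cases h : x ∈ s
      · simp [h]
      · simp [h]
    rw [this]
    exact M.smul_mem _ (hall s hs)
  · intro f g hf hg _ h1 h2
    exact M.add_mem h1 h2
  · exact Submodule.isClosed_topologicalClosure _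

theorem frag_SQ (p : ℝ≥0∞) [Fact (1 ≤ p)] (hp : p ≠ ⊤) (k : ℕ) (hk : p.toReal < k) :
    Frag (stepAdd p).range (SQ p) k := by
  rintro v ⟨q, rfl⟩ ε hε
  have hp0 : 0 < p.toReal := ENNReal.toReal_pos (zero_lt_one.trans_le (Fact.out : 1 ≤ p)).ne' hp
  -- the choice of `N`
  obtain ⟨N, hN1, hN2, hN3⟩ : ∃ N : ℕ, 0 < N ∧ ((N : ℝ)⁻¹) ^ (1 / p.toReal) ≤ ε ∧
      N * (((N : ℝ)⁻¹) ^ (1 / p.toReal)) ^ k ≤ ε := by
    have h1 : Tendsto (fun N : ℕ => (N : ℝ)⁻¹) atTop (𝓝 0) :=
      tendsto_inv_atTop_zero.comp tendsto_natCast_atTop_atTop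
    have h2 : ∀ a : ℝ, 0 < a → Tendsto (fun N : ℕ => ((N : ℝ)⁻¹) ^ a) atTop (𝓝 0) := by
      intro a ha
      have := h1.rpow_const (p := a) (Or.inr ha.le)
      rwa [Real.zero_rpow ha.ne'] at this
    have h3 : (0 : ℝ) < k / p.toReal - 1 := by
      rw [sub_pos, lt_div_iff₀ hp0]; linarith
    have h4 := ((h2 _ (by positivity : 0 < 1 / p.toReal)).eventually_le_const hε).and
      (((h2 _ h3).eventually_le_const hε).and (eventually_gt_atTop 0))
    obtain ⟨N, hN1, hN2, hN3⟩ := h4.exists
    refine ⟨N, hN3, hN1, ?_⟩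
    have hN : (0 : ℝ) < N := by exact_mod_cast hN3
    refine le_trans (le_of_eq ?_) hN2
    rw [← Real.rpow_natCast, ← Real.rpow_mul (by positivity), Real.rpow_sub (by positivity),
      Real.rpow_one]
    rw [div_inv_eq_mul, mul_comm]
    congr 2
    ring
  have hc : ∀ j : ℕ, ((min q ((j : ℚ) / N) : ℚ) : ℝ) = min (q : ℝ) ((j : ℝ) / N) := by
    intro j; push_cast; rfl
  set w : ℕ → LpI p := fun j =>
    ind p (A := Iio ((min q ((j : ℚ) / N) : ℚ) : ℝ)) measurableSet_Iio with hw
  have hN : (0 : ℝ) < N := by exact_mod_cast hN1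
  have h0 : w 0 = 0 := by
    refine ind_empty p _ (fun x h0 _ => ?_)
    rw [hc, mem_Iio, not_lt]
    exact (min_le_right _ _).trans (by simpa using h0)
  have hsum : ∀ j, ∑ i ∈ Finset.range j, (w (i + 1) - w i) = w j := by
    intro j
    rw [Finset.sum_range_sub, h0, sub_zero]
  have hmem : ∀ j, w j ∈ (stepAdd p).range := fun j =>
    ⟨Finsupp.single _ 1, stepAdd_single p _⟩
  refine ⟨N, fun i => w (i + 1) - w i, ((N : ℝ)⁻¹) ^ (1 / p.toReal),
    fun i => sub_mem (hmem _) (hmem _), ?_, by positivity, hN2, ?_, hN3, ?_⟩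
  · rw [hsum]
    refine ind_congr p _ _ (fun x _ h1 => ?_)
    rw [hc, mem_Iio, mem_Iio, lt_min_iff, div_self hN.ne']
    exact ⟨fun h => h.1, fun h => ⟨h, h1⟩⟩
  · intro i
    refine norm_ind_sub p _ _ ?_
    have h1 : symmDiff (Iio ((min q (((i + 1 : ℕ) : ℚ) / N) : ℚ) : ℝ))
        (Iio ((min q ((i : ℚ) / N) : ℚ) : ℝ)) ⊆ Ico ((i : ℝ) / N) ((i + 1 : ℕ) / N) := by
      intro x hx
      have h5 : (i : ℝ) / N ≤ ((i + 1 : ℕ) : ℝ) / N := by
        gcongr
        simp
      rw [hc, hc, Set.mem_symmDiff, mem_Iio, mem_Iio, lt_min_iff, lt_min_iff] at hx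
      rcases hx with ⟨⟨ha, hb⟩, hc⟩ | ⟨⟨ha, hb⟩, hc⟩
      · refine ⟨?_, hb⟩
        by_contra h
        exact hc ⟨ha, not_le.1 h⟩
      · exact absurd ⟨ha, hb.trans_le h5⟩ hc
    have h2 : (volume.restrict (Icc (0 : ℝ) 1)).real (Ico ((i : ℝ) / N) ((i + 1 : ℕ) / N)) ≤
        (N : ℝ)⁻¹ := by
      refine (ENNReal.toReal_mono (by simp) (Measure.restrict_apply_le _ _)).trans ?_
      rw [Real.volume_Ico, ENNReal.toReal_ofReal (by
        rw [← sub_div]; push_cast; simp)]
      rw [← sub_div]; push_cast; simp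
    exact (measureReal_mono h1).trans h2
  · intro j hj
    rw [hsum]
    have h1 := norm_ind_sub p (A := Iio ((min q ((j : ℚ) / N) : ℚ) : ℝ)) (B := ∅) (r := 1)
      measurableSet_Iio MeasurableSet.empty ((measureReal_mono (subset_univ _)).trans (by
        simp [Measure.real]))
    rw [ind_empty p MeasurableSet.empty (fun x _ _ => by simp), sub_zero, Real.one_rpow] at h1
    exact h1

end Pool.Agent.L7h49.EP
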