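import Pool.Agent.L7h49.EP.Comp
import Pool.Agent.L7h49.EP.Step

/-!
# Epimorphisms with values in a Banach space
-/

open Filter Topology Set MeasureTheory
open scoped ENNReal

namespace Pool.Agent.L7h49.EP

universe u v w

section Core

variable {E : Type u} [NormedAddCommGroup E] [NormedSpace ℝ E]
    {W : Type v} [AddCommGroup W] [Module ℝ W] [TopologicalSpace W] [IsTopologicalAddGroup W]
    [ContinuousSMul ℝ W] [LocallyConvexSpace ℝ W] [T2Space W]
    {K : Type w} [Group K] [TopologicalSpace K] [IsTopologicalGroup K]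

omit [IsTopologicalAddGroup W] [ContinuousSMul ℝ W] [LocallyConvexSpace ℝ W] [T2Space W]
  [IsTopologicalGroup K] in
/-- The representation of a smooth homomorphism in a chart. -/
theorem chart_smooth (S : LieStr W K) {g : Multiplicative E →* K}
    (hg : SmoothHom (stdLie E) S g) {e : OpenPartialHomeomorph K W} (he : e ∈ S.atlas) :
    Smooth (fun x : E => e (g (Multiplicative.ofAdd x))) {x | g (Multiplicative.ofAdd x) ∈ e.source} := by
  intro n
  have := hg.2 _ rfl e he n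
  refine Cn.mono n this ?_
  intro x hx
  exact ⟨mem_univ _, hx⟩

/-- The quotient of two smooth homomorphisms which agree on `D` is locally constant. -/
theorem quot_const (S : LieStr W K) {g₁ g₂ : Multiplicative E →* K}
    (h₁ : SmoothHom (stdLie E) S g₁) (h₂ : SmoothHom (stdLie E) S g₂) {k : ℕ} (hk : 1 ≤ k)
    {D : AddSubgroup E} {T : Set E} (hT : Frag D T k) (hd : Dense (Submodule.span ℝ T : Set E))
    (hD : ∀ d ∈ D, g₁ (Multiplicative.ofAdd d) = g₂ (Multiplicative.ofAdd d)) (x₀ : E) :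
    ∀ᶠ x in 𝓝 x₀, g₁ (Multiplicative.ofAdd x) * (g₂ (Multiplicative.ofAdd x))⁻¹ =
      g₁ (Multiplicative.ofAdd x₀) * (g₂ (Multiplicative.ofAdd x₀))⁻¹ := by
  set a : E → K := fun x => g₁ (Multiplicative.ofAdd x) with ha
  set b : E → K := fun x => g₂ (Multiplicative.ofAdd x) with hb
  have hac : Continuous a := h₁.1.comp continuous_ofAdd
  have hbc : Continuous b := h₂.1.comp continuous_ofAdd
  obtain ⟨e₁, he₁, hx₁⟩ := S.cover (a x₀)
  obtain ⟨e₂, he₂, hx₂⟩ := S.cover (b x₀)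
  obtain ⟨e₃, he₃, hx₃⟩ := S.cover (b x₀)⁻¹
  obtain ⟨e, he, hx⟩ := S.cover (a x₀ * (b x₀)⁻¹)
  have o1 : IsOpen (a ⁻¹' e₁.source) := e₁.open_source.preimage hac
  have o2 : IsOpen (b ⁻¹' e₂.source) := e₂.open_source.preimage hbc
  have o3 : IsOpen ((fun x => (b x)⁻¹) ⁻¹' e₃.source) := e₃.open_source.preimage hbc.inv
  have o4 : IsOpen ((fun x => a x * (b x)⁻¹) ⁻¹' e.source) :=
    e.open_source.preimage (hac.mul hbc.inv)
  set U : Set E := a ⁻¹' e₁.source ∩ (b ⁻¹' e₂.source ∩ ((fun x => (b x)⁻¹) ⁻¹' e₃.source ∩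
    (fun x => a x * (b x)⁻¹) ⁻¹' e.source)) with hU
  have oU : IsOpen U := o1.inter (o2.inter (o3.inter o4))
  have hx₀ : x₀ ∈ U := ⟨hx₁, hx₂, hx₃, hx⟩
  have smooth : Cn k (fun x => e (a x * (b x)⁻¹)) U := by
    have c1 : Cn k (fun x => e₁ (a x)) U :=
      Cn.mono k (chart_smooth S h₁ he₁ k) (fun x hx => hx.1)
    have c2 : Cn k (fun x => e₂ (b x)) U :=
      Cn.mono k (chart_smooth S h₂ he₂ k) (fun x hx => hx.2.1)
    have oV : IsOpen {z | z ∈ e₂.target ∧ (e₂.symm z)⁻¹ ∈ e₃.source} :=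
      (e₂.continuousOn_symm.inv).isOpen_inter_preimage e₂.open_target e₃.open_source
    have c3 : Cn k (fun x => e₃ (e₂.symm (e₂ (b x)))⁻¹) U :=
      s_COMP k E W W (fun x => e₂ (b x)) (fun z => e₃ (e₂.symm z)⁻¹) U _ oU oV
        (fun x hx => ⟨e₂.map_source hx.2.1, by
          rw [e₂.left_inv hx.2.1]; exact hx.2.2.1⟩) c2 (S.smooth_inv e₂ he₂ e₃ he₃ k)
    have c3' : Cn k (fun x => e₃ (b x)⁻¹) U :=
      Cn.congr oU c3 (fun x hx => by rw [e₂.left_inv hx.2.1])
    have oV' : IsOpen {z : W × W | z.1 ∈ e₁.target ∧ z.2 ∈ e₃.target ∧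
        e₁.symm z.1 * e₃.symm z.2 ∈ e.source} := by
      have hc : ContinuousOn (fun z : W × W => e₁.symm z.1 * e₃.symm z.2)
          (e₁.target ×ˢ e₃.target) :=
        (e₁.continuousOn_symm.comp continuousOn_fst (fun z hz => hz.1)).mul
          (e₃.continuousOn_symm.comp continuousOn_snd (fun z hz => hz.2))
      have := hc.isOpen_inter_preimage (e₁.open_target.prod e₃.open_target) e.open_source
      convert this using 1
      ext z
      simp only [mem_ofPred_eq, mem_inter_iff, mem_prod, mem_preimage]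
      tauto
    have c4 : Cn k (fun x => e (e₁.symm (e₁ (a x)) * e₃.symm (e₃ (b x)⁻¹))) U :=
      s_COMP k E (W × W) W (fun x => (e₁ (a x), e₃ (b x)⁻¹))
        (fun z => e (e₁.symm z.1 * e₃.symm z.2)) U _ oU oV'
        (fun x hx => ⟨e₁.map_source hx.1, e₃.map_source hx.2.2.1, by
          rw [e₁.left_inv hx.1, e₃.left_inv hx.2.2.1]; exact hx.2.2.2⟩)
        (Cn.prodMk k c1 c3') (S.smooth_mul e₁ he₁ e₃ he₃ e he k)
    exact Cn.congr oU c4 (fun x hx => by
      rw [e₁.left_inv hx.1, e₃.left_inv hx.2.2.1])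
  have hper : ∀ d ∈ D, ∀ y, e (a (y + d) * (b (y + d))⁻¹) = e (a y * (b y)⁻¹) := by
    intro d hd y
    congr 1
    simp only [ha, hb, ofAdd_add, map_mul, mul_inv_rev]
    rw [hD d hd]
    group
  have h1 := per_const s_STRONG hk smooth oU hper hT hd hx₀
  filter_upwards [h1, o4.mem_nhds hx] with x h2 h3
  exact e.injOn h3 hx h2

/-- Smooth homomorphisms which agree on `D` are equal. -/
theorem epi_core (S : LieStr W K) {g₁ g₂ : Multiplicative E →* K}
    (h₁ : SmoothHom (stdLie E) S g₁) (h₂ : SmoothHom (stdLie E) S g₂) {k : ℕ} (hk : 1 ≤ k)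
    {D : AddSubgroup E} {T : Set E} (hT : Frag D T k) (hd : Dense (Submodule.span ℝ T : Set E))
    (hD : ∀ d ∈ D, g₁ (Multiplicative.ofAdd d) = g₂ (Multiplicative.ofAdd d)) : g₁ = g₂ := by
  have hloc : IsLocallyConstant fun x : E =>
      g₁ (Multiplicative.ofAdd x) * (g₂ (Multiplicative.ofAdd x))⁻¹ :=
    (IsLocallyConstant.iff_eventually_eq _).2 fun x₀ => quot_const S h₁ h₂ hk hT hd hD x₀
  refine MonoidHom.ext fun x => ?_
  have h1 := hloc.apply_eq_of_isPreconnected (isPreconnected_univ) (mem_univ x.toAdd)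
    (mem_univ (0 : E))
  simp only [ofAdd_toAdd, ofAdd_zero, map_one, inv_one, mul_one] at h1
  exact mul_inv_eq_one.1 h1

end Core

end Pool.Agent.L7h49.EP
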