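import Pool.Agent.L7h49.EP.Stm2

/-!
# Derivatives along lines
-/

open Filter Topology Set

namespace Pool.Agent.L7h49.EP

universe u v

section Basic

variable {E : Type u} {F : Type v} [AddCommGroup E] [Module ℝ E] [TopologicalSpace E]
    [AddCommGroup F] [Module ℝ F] [TopologicalSpace F]

theorem DirDeriv.unique [T2Space F] {f : E → F} {L L' : F} {x v : E} (h : DirDeriv f L x v)
    (h' : DirDeriv f L' x v) : L = L' :=
  tendsto_nhds_unique h h'

theorem tendsto_mul_ne {c : ℝ} (hc : c ≠ 0) :
    Tendsto (fun t : ℝ => t * c) (𝓝[≠] 0) (𝓝[≠] 0) := by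
  refine tendsto_nhdsWithin_iff.2 ⟨?_, ?_⟩
  · have : Tendsto (fun t : ℝ => t * c) (𝓝 0) (𝓝 (0 * c)) := (continuous_id.mul continuous_const).tendsto 0
    rw [zero_mul] at this
    exact this.mono_left nhdsWithin_le_nhds
  · filter_upwards [self_mem_nhdsWithin] with t ht
    exact mul_ne_zero ht hc

theorem DirDeriv.smul [ContinuousConstSMul ℝ F] {f : E → F} {L : F} {x v : E}
    (h : DirDeriv f L x v) (c : ℝ) : DirDeriv f (c • L) x (c • v) := by
  unfold DirDeriv
  rcases eq_or_ne c 0 with rfl | hc
  · simpa using (tendsto_const_nhds : Tendsto (fun _ : ℝ => (0 : F)) (𝓝[≠] 0) (𝓝 0))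
  have h1 := (h.comp (tendsto_mul_ne hc)).const_smul c
  refine h1.congr' ?_
  filter_upwards [self_mem_nhdsWithin] with t ht
  have ht' : t ≠ 0 := ht
  simp only [Function.comp, smul_smul]
  congr 1
  field_simp

theorem Cn.continuousOn {n : ℕ} {f : E → F} {U : Set E} (h : Cn n f U) : ContinuousOn f U := by
  cases n with
  | zero => exact h
  | succ n => exact h.1

theorem tendsto_line [ContinuousAdd E] [ContinuousSMul ℝ E] (x v : E) :
    Tendsto (fun t : ℝ => x + t • v) (𝓝[≠] 0) (𝓝 x) := by
  have : Tendsto (fun t : ℝ => x + t • v) (𝓝 0) (𝓝 (x + (0 : ℝ) • v)) :=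
    (continuous_const.add (continuous_id.smul continuous_const)).tendsto 0
  rw [zero_smul, add_zero] at this
  exact this.mono_left nhdsWithin_le_nhds

end Basic

/-- A system of iterated derivatives of `f` along lines. -/
structure Jet {E : Type u} {F : Type v} [AddCommGroup E] [Module ℝ E] [TopologicalSpace E]
    [AddCommGroup F] [Module ℝ F] [TopologicalSpace F] (n : ℕ) (f : E → F) (U : Set E)
    (T : ℕ → E × E → F) : Prop where
  cont : ∀ j ≤ n, ContinuousOn (T j) (U ×ˢ (univ : Set E))
  zero : ∀ x v, T 0 (x, v) = f x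
  deriv : ∀ j < n, ∀ x ∈ U, ∀ v, Tendsto (fun t : ℝ => t⁻¹ • (T j (x + t • v, v) - T j (x, v)))
    (𝓝[≠] 0) (𝓝 (T (j + 1) (x, v)))

theorem exists_jet (n : ℕ) : ∀ {E : Type u} {F : Type v} [AddCommGroup E] [Module ℝ E]
    [TopologicalSpace E] [AddCommGroup F] [Module ℝ F] [TopologicalSpace F] {f : E → F}
    {U : Set E}, Cn n f U → ∃ T, Jet n f U T := by
  induction n with
  | zero =>
    intro E F _ _ _ _ _ _ f U h
    refine ⟨fun _ z => f z.1, fun j _ => ?_, fun x v => rfl, fun j hj => absurd hj (by omega)⟩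
    exact ContinuousOn.comp (t := U) h continuous_fst.continuousOn (fun z hz => hz.1)
  | succ n ih =>
    intro E F _ _ _ _ _ _ f U h
    obtain ⟨h0, f', h1, h2⟩ := h
    obtain ⟨T', hT⟩ := ih h2
    refine ⟨fun j => Nat.casesOn j (fun z => f z.1) (fun j z => T' j ((z.1, z.2), (z.2, 0))),
      ?_, fun x v => rfl, ?_⟩
    · intro j hj
      cases j with
      | zero => exact ContinuousOn.comp (t := U) h0 continuous_fst.continuousOn (fun z hz => hz.1)
      | succ j =>
        have hc : Continuous fun z : E × E => (((z.1, z.2), (z.2, 0)) : (E × E) × (E × E)) := by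
          fun_prop
        exact ContinuousOn.comp (hT.cont j (by omega)) hc.continuousOn
          (fun z hz => ⟨⟨hz.1, mem_univ _⟩, mem_univ _⟩)
    · intro j hj x hx v
      cases j with
      | zero =>
        have := h1 x hx v
        simp only [hT.zero]
        exact this
      | succ j =>
        have := hT.deriv j (by omega) (x, v) ⟨hx, mem_univ _⟩ (v, 0)
        simpa using this

section Jet

variable {E : Type u} {F : Type v} [AddCommGroup E] [Module ℝ E] [TopologicalSpace E]
    [ContinuousAdd E] [ContinuousSMul ℝ E]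
    [AddCommGroup F] [Module ℝ F] [TopologicalSpace F]
    [ContinuousConstSMul ℝ F] [T2Space F]
    {n : ℕ} {f : E → F} {U : Set E} {T : ℕ → E × E → F}

theorem Jet.smul (hT : Jet n f U T) (hU : IsOpen U) {j : ℕ} (hj : j ≤ n) {x : E} (hx : x ∈ U)
    (v : E) (c : ℝ) : T j (x, c • v) = c ^ j • T j (x, v) := by
  induction j generalizing x with
  | zero => simp [hT.zero]
  | succ j ih =>
    have h1 := hT.deriv j (by omega) x hx (c • v)
    have h2 := hT.deriv j (by omega) x hx v
    have h3 : Tendsto (fun t : ℝ => t⁻¹ • (T j (x + t • c • v, c • v) - T j (x, c • v)))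
        (𝓝[≠] 0) (𝓝 (c ^ (j + 1) • T (j + 1) (x, v))) := by
      have hev : ∀ᶠ t : ℝ in 𝓝[≠] 0, x + t • c • v ∈ U :=
        (tendsto_line x (c • v)).eventually (hU.mem_nhds hx)
      rcases eq_or_ne c 0 with rfl | hc
      · have : (0 : ℝ) ^ (j + 1) • T (j + 1) (x, v) = 0 := by simp
        rw [this]
        refine tendsto_const_nhds.congr fun t => ?_
        simp
      have h4 := (h2.comp (tendsto_mul_ne hc)).const_smul (c ^ (j + 1))
      refine h4.congr' ?_
      filter_upwards [hev, self_mem_nhdsWithin] with t ht ht0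
      have ht' : t ≠ 0 := ht0
      rw [ih (by omega) ht, ih (by omega) hx]
      simp only [Function.comp, smul_smul, ← smul_sub]
      congr 1
      rw [pow_succ]
      field_simp
    exact tendsto_nhds_unique h1 h3

omit [ContinuousConstSMul ℝ F] in
theorem Jet.periodic (hT : Jet n f U T) (hU : IsOpen U) {d : E} (hd : ∀ y, f (y + d) = f y)
    {j : ℕ} (hj : j ≤ n) {x : E} (hx : x ∈ U) (hx' : x + d ∈ U) (v : E) :
    T j (x + d, v) = T j (x, v) := by
  induction j generalizing x with
  | zero => simp [hT.zero, hd]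
  | succ j ih =>
    have h1 := hT.deriv j (by omega) (x + d) hx' v
    have h2 := hT.deriv j (by omega) x hx v
    refine tendsto_nhds_unique h1 (h2.congr' ?_)
    have hev : ∀ᶠ t : ℝ in 𝓝[≠] 0, x + t • v ∈ U := (tendsto_line x v).eventually (hU.mem_nhds hx)
    have hev' : ∀ᶠ t : ℝ in 𝓝[≠] 0, x + d + t • v ∈ U :=
      (tendsto_line (x + d) v).eventually (hU.mem_nhds hx')
    filter_upwards [hev, hev'] with t ht ht'
    have h3 : x + d + t • v = x + t • v + d := by abel
    rw [h3] at ht' ⊢
    rw [ih (by omega) ht ht', ih (by omega) hx hx']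

end Jet

end Pool.Agent.L7h49.EP
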