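import Pool.Agent.L7h49.EP.Strong

/-!
# Maps of class `C^1` are locally Lipschitz with respect to suitable seminorms
-/

open Filter Topology Set

namespace Pool.Agent.L7h49.EP

universe u v

theorem exists_seminorm {E : Type u} [AddCommGroup E] [Module ℝ E] [TopologicalSpace E]
    [IsTopologicalAddGroup E] [ContinuousSMul ℝ E] [LocallyConvexSpace ℝ E] {O : Set E}
    (hO : O ∈ 𝓝 (0 : E)) : ∃ q : Seminorm ℝ E, Continuous q ∧ ∀ v, q v < 1 → v ∈ O := by
  obtain ⟨s, hs, hsO⟩ := (nhds_hasBasis_absConvex_open ℝ E).mem_iff.1 hO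
  refine ⟨gaugeSeminormFamily ℝ E ⟨s, hs⟩,
    (with_gaugeSeminormFamily (𝕜 := ℝ) (E := E)).continuous_seminorm _, fun v hv => hsO ?_⟩
  have h1 := gaugeSeminormFamily_ball (𝕜 := ℝ) (E := E) ⟨s, hs⟩
  have h2 : v ∈ (gaugeSeminormFamily ℝ E ⟨s, hs⟩).ball 0 1 := by
    rw [Seminorm.mem_ball_zero]; exact hv
  rw [h1] at h2
  exact h2

/-- A map of class `C^1` is locally Lipschitz: for every continuous seminorm `p` there are a
continuous seminorm `q` and a neighbourhood of `x₀` on which `p (f x - f y) ≤ q (x - y)`. -/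
theorem locLip {E : Type u} {F : Type v} [AddCommGroup E] [Module ℝ E] [TopologicalSpace E]
    [IsTopologicalAddGroup E] [ContinuousSMul ℝ E] [LocallyConvexSpace ℝ E]
    [AddCommGroup F] [Module ℝ F] [TopologicalSpace F] [IsTopologicalAddGroup F]
    [ContinuousSMul ℝ F] [T2Space F]
    {f : E → F} {U : Set E} (hU : IsOpen U) (hf : Cn 1 f U) {x₀ : E} (hx₀ : x₀ ∈ U)
    (p : Seminorm ℝ F) (hp : Continuous p) :
    ∃ q : Seminorm ℝ E, Continuous q ∧ ∃ N ∈ 𝓝 x₀, ∀ x ∈ N, ∀ y ∈ N, p (f x - f y) ≤ q (x - y) := by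
  obtain ⟨-, f', h1, h2⟩ := hf
  have h0 : f' (x₀, 0) = 0 := by
    refine (h1 x₀ hx₀ 0).unique ?_
    simpa [DirDeriv] using (tendsto_const_nhds : Tendsto (fun _ : ℝ => (0 : F)) (𝓝[≠] 0) (𝓝 0))
  have h3 : ∀ᶠ z in 𝓝 (x₀, (0 : E)), z.1 ∈ U ∧ p (f' z) < 1 := by
    have h4 : ContinuousAt f' (x₀, (0 : E)) :=
      ContinuousOn.continuousAt h2 ((hU.prod isOpen_univ).mem_nhds ⟨hx₀, mem_univ _⟩)
    have h5 : ContinuousAt (fun z => p (f' z)) (x₀, (0 : E)) := hp.continuousAt.comp h4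
    have h6 : p (f' (x₀, 0)) < 1 := by rw [h0, map_zero]; exact zero_lt_one
    exact (continuousAt_fst.eventually (hU.mem_nhds hx₀)).and (h5.eventually_lt_const h6)
  rw [nhds_prod_eq] at h3
  obtain ⟨P, hP, Q, hQ, hPQ⟩ := eventually_prod_iff.1 h3
  obtain ⟨q, hqc, hq⟩ := exists_seminorm hQ
  obtain ⟨N, ⟨hN, hNc⟩, hNP⟩ := (LocallyConvexSpace.convex_basis (𝕜 := ℝ) x₀).mem_iff.1 hP
  have key : ∀ x, P x → ∀ v, p (f' (x, v)) ≤ q v := by
    intro x hx v
    refine le_of_forall_gt_imp_ge_of_dense fun r hr => ?_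
    have hr0 : 0 < r := (apply_nonneg q v).trans_lt hr
    have h7 : q (r⁻¹ • v) < 1 := by
      rw [map_smul_eq_mul, Real.norm_eq_abs, abs_of_pos (inv_pos.2 hr0)]
      rw [inv_mul_lt_iff₀ hr0, mul_one]
      exact hr
    have h8 := (hPQ hx (hq _ h7))
    have h9 : f' (x, v) = r • f' (x, r⁻¹ • v) := by
      refine (h1 x h8.1 v).unique ?_
      have := (h1 x h8.1 (r⁻¹ • v)).smul r
      rwa [smul_smul, mul_inv_cancel₀ hr0.ne', one_smul] at this
    rw [h9, map_smul_eq_mul, Real.norm_eq_abs, abs_of_pos hr0]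
    calc r * p (f' (x, r⁻¹ • v)) ≤ r * 1 := mul_le_mul_of_nonneg_left h8.2.le hr0.le
      _ = r := mul_one r
  refine ⟨q, hqc, N, hN, fun x hx y hy => ?_⟩
  have hseg : ∀ s ∈ Icc (0 : ℝ) 1, P (y + s • (x - y)) := by
    intro s hs
    refine hNP ?_
    have := hNc.add_smul_sub_mem hy hx hs
    exact this
  have hU' : ∀ z, P z → z ∈ U := by
    intro z hz
    have hQ0 : Q 0 := hq 0 (by rw [map_zero]; exact zero_lt_one)
    exact (hPQ hz hQ0).1
  have h10 := mvt p hp (fun s => f (y + s • (x - y))) (fun s => f' (y + s • (x - y), x - y)) 0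
    (q (x - y)) (fun s hs => ?_) (fun s hs => ?_)
  · simpa using h10
  · refine (h1 _ (hU' _ (hseg s hs)) (x - y)).congr fun t => ?_
    rw [add_smul, add_assoc]
  · rw [sub_zero]
    exact key _ (hseg s hs) _

end Pool.Agent.L7h49.EP
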