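import Pool.Agent.L7h49.EP.Stm

/-!
# Integer-valued functions in `L^p`
-/

open Filter Topology Set MeasureTheory
open scoped ENNReal

namespace Pool.Agent.L7h49.EP

instance finI : IsFiniteMeasure (volume.restrict (Icc (0 : ℝ) 1)) := ⟨by simp⟩

/-- The indicator function of a measurable set. -/
noncomputable def ind (p : ℝ≥0∞) {A : Set ℝ} (hA : MeasurableSet A) : LpI p :=
  indicatorConstLp p hA (measure_ne_top _ _) (1 : ℝ)

theorem ind_mem (p : ℝ≥0∞) {A : Set ℝ} (hA : MeasurableSet A) : ind p hA ∈ IntVal p := by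
  change IsIntVal _
  unfold IsIntVal ind
  filter_upwards [indicatorConstLp_coeFn (p := p) (hs := hA)
    (hμs := measure_ne_top (volume.restrict (Icc (0 : ℝ) 1)) A) (c := (1 : ℝ))] with x hx
  rw [hx]
  by_cases h : x ∈ A
  · exact ⟨1, by simp [h]⟩
  · exact ⟨0, by simp [h]⟩

theorem norm_ind_sub (p : ℝ≥0∞) [Fact (1 ≤ p)] {A B : Set ℝ} (hA : MeasurableSet A)
    (hB : MeasurableSet B) {r : ℝ}
    (h : (volume.restrict (Icc (0 : ℝ) 1)).real (symmDiff A B) ≤ r) :
    ‖ind p hA - ind p hB‖ ≤ r ^ (1 / p.toReal) := by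
  rw [← dist_eq_norm]
  unfold ind
  rw [dist_indicatorConstLp_eq_norm]
  refine norm_indicatorConstLp_le.trans ?_
  rw [norm_one, one_mul]
  exact Real.rpow_le_rpow measureReal_nonneg h (by positivity)

theorem s_LP : S_LP := by
  intro p hp hptop
  constructor
  · intro hd
    have hp0 : p ≠ 0 := (zero_lt_one.trans_le hp.out).ne'
    let g : LpI p := indicatorConstLp p MeasurableSet.univ (measure_ne_top _ _) (1 / 2 : ℝ)
    have hg : ‖g‖ = 1 / 2 := by
      change ‖indicatorConstLp p MeasurableSet.univ _ (1 / 2 : ℝ)‖ = _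
      rw [norm_indicatorConstLp hp0 hptop]
      simp [Measure.real]
    obtain ⟨f, hf, hfg⟩ := Metric.dense_iff.1 hd g (1 / 2) (by norm_num)
    obtain ⟨hf1, hf2⟩ : f ∈ Metric.ball g (1 / 2) ∧ IsIntVal f := ⟨hf, hfg⟩
    have h1 : ‖g‖ ≤ ‖f - g‖ := by
      refine Lp.norm_le_norm_of_ae_le ?_
      filter_upwards [Lp.coeFn_sub f g, hf2, indicatorConstLp_coeFn (p := p)
        (hs := MeasurableSet.univ)
        (hμs := measure_ne_top (volume.restrict (Icc (0 : ℝ) 1)) univ) (c := (1 / 2 : ℝ))]
        with x h1 h2 h3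
      obtain ⟨n, hn⟩ := h2
      have h3' : g x = 1 / 2 := by
        change (indicatorConstLp p MeasurableSet.univ _ (1 / 2 : ℝ) : LpI p) x = _
        rw [h3]; simp
      rw [h1, Pi.sub_apply, h3', hn, Real.norm_eq_abs, Real.norm_eq_abs]
      rcases le_or_gt n 0 with h | h
      · have : (n : ℝ) ≤ 0 := by exact_mod_cast h
        rw [abs_of_neg (by linarith : (n : ℝ) - 1 / 2 < 0), abs_of_pos (by norm_num)]
        linarith
      · have : (1 : ℝ) ≤ n := by exact_mod_cast h
        rw [abs_of_pos (by linarith : (0 : ℝ) < (n : ℝ) - 1 / 2), abs_of_pos (by norm_num)]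
        linarith
    rw [Metric.mem_ball, dist_eq_norm] at hf1
    linarith
  · refine ⟨{v | ∃ (A : Set ℝ) (hA : MeasurableSet A), v = ind p hA}, ?_, ?_⟩
    · intro f
      refine Lp.induction hptop (motive := fun f => f ∈ closure ((Submodule.span ℝ
        {v : LpI p | ∃ (A : Set ℝ) (hA : MeasurableSet A), v = ind p hA} :
          Submodule ℝ (LpI p)) : Set (LpI p))) ?_ ?_ ?_ f
      · intro c s hs hμs
        refine subset_closure ?_
        have : (Lp.simpleFunc.indicatorConst p hs hμs.ne c : LpI p) = c • ind p hs := by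
          rw [Lp.simpleFunc.coe_indicatorConst]
          unfold ind
          refine Lp.ext ?_
          filter_upwards [Lp.coeFn_smul c (indicatorConstLp p hs
              (measure_ne_top (volume.restrict (Icc (0 : ℝ) 1)) s) (1 : ℝ)),
            indicatorConstLp_coeFn (p := p) (hs := hs) (hμs := hμs.ne) (c := c),
            indicatorConstLp_coeFn (p := p) (hs := hs)
              (hμs := measure_ne_top (volume.restrict (Icc (0 : ℝ) 1)) s) (c := (1 : ℝ))]
            with x h1 h2 h3
          rw [h1, h2, Pi.smul_apply, h3]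
          by_cases h : x ∈ s
          · simp [h]
          · simp [h]
        rw [this]
        exact Submodule.smul_mem _ _ (Submodule.subset_span ⟨s, hs, rfl⟩)
      · intro f g hf hg _ h1 h2
        exact (Submodule.span ℝ {v : LpI p | ∃ (A : Set ℝ) (hA : MeasurableSet A),
          v = ind p hA}).topologicalClosure.add_mem h1 h2
      · exact isClosed_closure
    · rintro v ⟨A, hA, rfl⟩ N hN
      have hB : ∀ j : ℕ, MeasurableSet (A ∩ Ico (0 : ℝ) (j / N)) :=
        fun j => hA.inter measurableSet_Ico
      have h0 : ind p (hB 0) = 0 := by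
        unfold ind
        have : A ∩ Ico (0 : ℝ) ((0 : ℕ) / N) = ∅ := by simp
        simp only [this]
        exact indicatorConstLp_empty
      have hsum : ∀ j, ∑ i ∈ Finset.range j, (ind p (hB (i + 1)) - ind p (hB i)) =
          ind p (hB j) := by
        intro j
        rw [Finset.sum_range_sub (fun i => ind p (hB i)), h0, sub_zero]
      refine ⟨fun i => ind p (hB (i + 1)) - ind p (hB i),
        fun i => (IntVal p).sub_mem (ind_mem p _) (ind_mem p _), ?_, ?_, ?_⟩
      · rw [hsum]
        unfold ind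
        refine Lp.ext ?_
        have h1 : ∀ᵐ x ∂(volume.restrict (Icc (0 : ℝ) 1)), x ∈ Icc (0 : ℝ) 1 :=
          ae_restrict_mem measurableSet_Icc
        have h2 : ∀ᵐ x ∂(volume.restrict (Icc (0 : ℝ) 1)), x ≠ 1 :=
          ae_restrict_of_ae (Measure.ae_ne volume 1)
        filter_upwards [indicatorConstLp_coeFn (p := p) (hs := hB N)
            (hμs := measure_ne_top (volume.restrict (Icc (0 : ℝ) 1)) _) (c := (1 : ℝ)),
          indicatorConstLp_coeFn (p := p) (hs := hA)
            (hμs := measure_ne_top (volume.restrict (Icc (0 : ℝ) 1)) _) (c := (1 : ℝ)), h1, h2]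
          with x h3 h4 h5 h6
        rw [h3, h4]
        have h7 : x ∈ Ico (0 : ℝ) ((N : ℝ) / N) := by
          rw [div_self (by positivity)]
          exact ⟨h5.1, lt_of_le_of_ne h5.2 h6⟩
        by_cases h8 : x ∈ A
        · rw [indicator_of_mem h8]
          exact indicator_of_mem (show x ∈ A ∩ Ico (0 : ℝ) ((N : ℝ) / N) from ⟨h8, h7⟩) _
        · rw [indicator_of_notMem h8, indicator_of_notMem (fun h => h8 h.1)]
      · intro i
        refine norm_ind_sub p (hB (i + 1)) (hB i) ?_
        have h1 : symmDiff (A ∩ Ico (0 : ℝ) ((i + 1 : ℕ) / N)) (A ∩ Ico (0 : ℝ) (i / N)) ⊆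
            Ico ((i : ℝ) / N) ((i + 1 : ℕ) / N) := by
          intro x hx
          have hN' : (0 : ℝ) < N := by exact_mod_cast hN
          rcases hx with ⟨⟨ha, hb⟩, hc⟩ | ⟨⟨ha, hb⟩, hc⟩
          · refine ⟨?_, hb.2⟩
            by_contra h
            exact hc ⟨ha, hb.1, not_le.1 h⟩
          · exfalso
            have h5 : (i : ℝ) / N ≤ ((i + 1 : ℕ) : ℝ) / N := by
              gcongr
              simp
            exact hc ⟨ha, hb.1, hb.2.trans_le h5⟩
        have h2 : (volume.restrict (Icc (0 : ℝ) 1)).real (Ico ((i : ℝ) / N) ((i + 1 : ℕ) / N)) ≤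
            (N : ℝ)⁻¹ := by
          refine (ENNReal.toReal_mono (by simp) (Measure.restrict_apply_le _ _)).trans ?_
          rw [Real.volume_Ico, ENNReal.toReal_ofReal (by
            rw [← sub_div]; push_cast; simp)]
          rw [← sub_div]; push_cast; simp
        exact (measureReal_mono h1).trans h2
      · intro j hj
        rw [hsum]
        unfold ind
        refine norm_indicatorConstLp_le.trans ?_
        rw [norm_one, one_mul]
        refine Real.rpow_le_one measureReal_nonneg ?_ (by positivity)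
        refine (measureReal_mono (subset_univ _)).trans ?_
        simp [Measure.real]

end Pool.Agent.L7h49.EP
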