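import Pool.Agent.L7h49.EP.Semi

/-!
# A topological group which separates the points of `H` from a subgroup
-/

open Filter Topology Set UniformOnFun

namespace Pool.Agent.L7h49.EP

universe v w

/-- Lengths on a topological group, such that conjugation by the elements near a given one is
controlled. -/
structure Len (P : Type v) (H : Type w) [Group H] [TopologicalSpace H] where
  /-- the lengths -/
  len : P → H → ℝ
  tend : ∀ p, Tendsto (len p) (𝓝 1) (𝓝 0)
  conj : ∀ (k₀ : H) (p : P), ∃ q, ∃ N ∈ 𝓝 k₀, ∀ k ∈ N, ∀ m, len p (k * m * k⁻¹) ≤ len q m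

namespace Len

variable {P : Type v} {H : Type w} [Group H] [TopologicalSpace H] (Λ : Len P H) (L : Subgroup H)

/-- Functions which are Lipschitz for left translations. -/
def IsLip (p : P) (F : H → ℝ) : Prop := ∀ k x, F (k * x) ≤ F x + Λ.len p k

/-- Right invariant functions which are Lipschitz for left translations. -/
structure LipFun where
  /-- the function -/
  F : H → ℝ
  inv : ∀ x, ∀ l ∈ L, F (x * l) = F x
  lip : ∃ p, Λ.IsLip p F

/-- The sets of functions with the same Lipschitz bound. -/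
def sets : Set (Set (LipFun Λ L)) := {s | ∃ p, s = {F | Λ.IsLip p F.F}}

variable {Λ L}

theorem IsLip.act {p q : P} {k : H} (h : ∀ m, Λ.len p (k * m * k⁻¹) ≤ Λ.len q m) {F : H → ℝ}
    (hF : Λ.IsLip p F) : Λ.IsLip q (fun x => F (k * x)) := by
  intro m x
  have h1 := hF (k * m * k⁻¹) (k * x)
  have h2 := h m
  have h3 : k * m * k⁻¹ * (k * x) = k * (m * x) := by group
  rw [h3] at h1
  change F (k * (m * x)) ≤ F (k * x) + Λ.len q m
  linarith

/-- Left translation. -/
def act (k : H) (F : LipFun Λ L) : LipFun Λ L where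
  F x := F.F (k * x)
  inv x l hl := by
    rw [← mul_assoc]; exact F.inv _ l hl
  lip := by
    obtain ⟨p, hF⟩ := F.lip
    obtain ⟨q, N, hN, h⟩ := Λ.conj k p
    exact ⟨q, hF.act (h k (mem_of_mem_nhds hN))⟩

theorem act_act (h k : H) (F : LipFun Λ L) : act h (act k F) = act (k * h) F := by
  simp only [act, mul_assoc]

theorem act_one (F : LipFun Λ L) : act 1 F = F := by
  simp only [act, one_mul]

variable (Λ L)

/-- The additive group of functionals which depend continuously on translations. -/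
def Vec : AddSubgroup (UniformOnFun (LipFun Λ L) ℝ (sets Λ L)) where
  carrier := {u | ∀ s ∈ sets Λ L, ∀ k₀ : H, TendstoUniformlyOn
    (fun k F => toFun (sets Λ L) u (act k F)) (fun F => toFun (sets Λ L) u (act k₀ F)) (𝓝 k₀) s}
  add_mem' {u u'} hu hu' s hs k₀ := (hu s hs k₀).add (hu' s hs k₀)
  zero_mem' s hs k₀ := by
    refine (tendstoUniformlyOn_iff_restrict).2 ?_
    exact tendstoUniformly_iff_tendsto.2 (by
      simp only [toFun_zero]
      exact tendsto_diag_uniformity _ _)
  neg_mem' {u} hu s hs k₀ := (hu s hs k₀).neg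

variable {Λ L}

theorem Vec.act_mem [IsTopologicalGroup H] (h : H) (u : Vec Λ L) :
    ofFun (sets Λ L) (fun F => toFun (sets Λ L) u.1 (act h F)) ∈ Vec Λ L := by
  intro s hs k₀
  simp only [toFun_ofFun, act_act]
  have h1 := u.2 s hs (k₀ * h)
  have h2 : Tendsto (fun k : H => k * h) (𝓝 k₀) (𝓝 (k₀ * h)) :=
    (continuous_mul_const h).tendsto k₀
  exact fun W hW => h2.eventually (h1 W hW)

variable [IsTopologicalGroup H]

instance : DistribMulAction H (Vec Λ L) where
  smul h u := ⟨ofFun (sets Λ L) (fun F => toFun (sets Λ L) u.1 (act h F)), Vec.act_mem h u⟩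
  one_smul u := by
    apply Subtype.ext
    change ofFun (sets Λ L) (fun F => toFun (sets Λ L) u.1 (act 1 F)) = u.1
    simp only [act_one]
    rfl
  mul_smul h k u := by
    apply Subtype.ext
    change ofFun (sets Λ L) (fun F => toFun (sets Λ L) u.1 (act (h * k) F)) =
      ofFun (sets Λ L) (fun F => toFun (sets Λ L) u.1 (act k (act h F)))
    simp only [act_act]
  smul_zero h := rfl
  smul_add h u u' := rfl

theorem smul_apply (h : H) (u : Vec Λ L) (F : LipFun Λ L) :
    toFun (sets Λ L) (h • u).1 F = toFun (sets Λ L) u.1 (act h F) := rfl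

instance : ContinuousSMul H (Vec Λ L) := by
  constructor
  rw [continuous_iff_continuousAt]
  rintro ⟨k₀, u₀⟩
  refine (tendsto_subtype_rng).2 ?_
  rw [UniformOnFun.tendsto_iff_tendstoUniformlyOn]
  rintro s ⟨p, rfl⟩
  rw [Metric.tendstoUniformlyOn_iff]
  intro ε hε
  obtain ⟨q, N, hN, h⟩ := Λ.conj k₀ p
  have h1 : Tendsto (fun z : H × Vec Λ L => z.2.1) (𝓝 (k₀, u₀)) (𝓝 u₀.1) :=
    (continuous_subtype_val.comp continuous_snd).tendsto _
  rw [UniformOnFun.tendsto_iff_tendstoUniformlyOn] at h1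
  have h2 := h1 _ ⟨q, rfl⟩
  rw [Metric.tendstoUniformlyOn_iff] at h2
  have h3 := u₀.2 _ ⟨p, rfl⟩ k₀
  rw [Metric.tendstoUniformlyOn_iff] at h3
  have h4 : Tendsto (fun z : H × Vec Λ L => z.1) (𝓝 (k₀, u₀)) (𝓝 k₀) :=
    continuous_fst.tendsto _
  filter_upwards [h2 (ε / 2) (half_pos hε), h4.eventually (h3 (ε / 2) (half_pos hε)),
    h4.eventually hN] with z a1 a2 a3 F hF
  change dist (toFun (sets Λ L) u₀.1 (act k₀ F)) (toFun (sets Λ L) z.2.1 (act z.1 F)) < ε
  have b1 := a1 (act z.1 F) (IsLip.act (h z.1 a3) hF)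
  have b2 := a2 F hF
  calc _ ≤ dist (toFun (sets Λ L) u₀.1 (act k₀ F)) (toFun (sets Λ L) u₀.1 (act z.1 F)) +
      dist (toFun (sets Λ L) u₀.1 (act z.1 F)) (toFun (sets Λ L) z.2.1 (act z.1 F)) :=
        dist_triangle _ _ _
    _ < ε / 2 + ε / 2 := add_lt_add b2 b1
    _ = ε := add_halves ε

instance : T2Space (Vec Λ L) := by
  have : T2Space (UniformOnFun (LipFun Λ L) ℝ (sets Λ L)) := by
    refine UniformOnFun.t2Space_of_covering ?_
    refine eq_univ_of_forall fun F => ?_
    obtain ⟨p, hp⟩ := F.lip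
    exact ⟨_, ⟨p, rfl⟩, hp⟩
  infer_instance

/-- The evaluation at `x`. -/
def delta (Λ : Len P H) (L : Subgroup H) (x : H) : Vec Λ L :=
  ⟨ofFun (sets Λ L) fun F => F.F x, by
    rintro s ⟨p, rfl⟩ k₀
    rw [Metric.tendstoUniformlyOn_iff]
    intro ε hε
    have h1 : Tendsto (fun k : H => Λ.len p (k * k₀⁻¹)) (𝓝 k₀) (𝓝 0) := by
      refine (Λ.tend p).comp ?_
      have := (continuous_mul_const k₀⁻¹).tendsto k₀
      rwa [mul_inv_cancel] at this
    have h2 : Tendsto (fun k : H => Λ.len p (k₀ * k⁻¹)) (𝓝 k₀) (𝓝 0) := by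
      refine (Λ.tend p).comp ?_
      have : Tendsto (fun k : H => k₀ * k⁻¹) (𝓝 k₀) (𝓝 (k₀ * k₀⁻¹)) :=
        tendsto_const_nhds.mul (continuous_inv.tendsto k₀)
      rwa [mul_inv_cancel] at this
    filter_upwards [h1.eventually_lt_const hε, h2.eventually_lt_const hε] with k a1 a2 F hF
    change dist (F.F (k₀ * x)) (F.F (k * x)) < ε
    have b1 := hF (k * k₀⁻¹) (k₀ * x)
    have b2 := hF (k₀ * k⁻¹) (k * x)
    have c1 : k * k₀⁻¹ * (k₀ * x) = k * x := by group
    have c2 : k₀ * k⁻¹ * (k * x) = k₀ * x := by group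
    rw [c1] at b1
    rw [c2] at b2
    rw [Real.dist_eq, abs_lt]
    constructor <;> linarith⟩

theorem smul_delta (k x : H) : k • delta Λ L x = delta Λ L (k * x) := rfl

/-- If some Lipschitz function which is right invariant under `L` is not constant, then there are
two different continuous homomorphisms from `H` to a Hausdorff group which agree on `L`. -/
theorem exists_sep [T2Space H] {F : H → ℝ} (hinv : ∀ x, ∀ l ∈ L, F (x * l) = F x) {p : P}
    (hlip : Λ.IsLip p F) {h₀ : H} (hne : F h₀ ≠ F 1) :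
    ∃ (K : Type w) (_ : Group K) (_ : TopologicalSpace K) (_ : IsTopologicalGroup K)
      (_ : T2Space K) (g₁ g₂ : H →* K), Continuous g₁ ∧ Continuous g₂ ∧
      (∀ l ∈ L, g₁ l = g₂ l) ∧ g₁ ≠ g₂ := by
  refine ⟨Semi (Vec Λ L) H, inferInstance, inferInstance, inferInstance, inferInstance,
    Semi.incl, Semi.conjIncl (delta Λ L 1), Semi.continuous_incl, Semi.continuous_conjIncl _,
    fun l hl => ?_, fun h => ?_⟩
  · rw [Semi.conjIncl_eq_iff, smul_delta, mul_one]
    apply Subtype.ext
    change ofFun (sets Λ L) (fun F => F.F l) = ofFun (sets Λ L) fun F => F.F 1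
    congr 1
    funext F
    have := F.inv 1 l hl
    rwa [one_mul] at this
  · have h1 := DFunLike.congr_fun h h₀
    rw [Semi.conjIncl_eq_iff, smul_delta, mul_one] at h1
    have h2 := congrArg (fun u : Vec Λ L => toFun (sets Λ L) u.1 ⟨F, hinv, p, hlip⟩) h1
    exact hne h2

end Len

end Pool.Agent.L7h49.EP
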