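import Pool.Agent.L7h49.EP.Conj
import Pool.Agent.L7h49.EP.MuK

/-!
# The distance from a closed subgroup of a Lie group with small products
-/

open Filter Topology Set

namespace Pool.Agent.L7h49.EP

set_option linter.unusedSectionVars false

universe v w

section

variable {H : Type w} [Group H]

/-- The lengths of the products representing the coset of `x`. -/
def lens (ℓ : H → ℝ) (L : Subgroup H) (x : H) : Set ℝ :=
  {r | ∃ l : List H, ∃ y ∈ L, x = l.prod * y ∧ r = (l.map ℓ).sum}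

/-- The distance of the coset of `x` from `L`. -/
noncomputable def dst (ℓ : H → ℝ) (L : Subgroup H) (x : H) : ℝ := sInf (lens ℓ L x)

variable {ℓ : H → ℝ} (hℓ : ∀ k, 0 ≤ ℓ k) (L : Subgroup H)
include hℓ

theorem sum_len_nonneg (l : List H) : 0 ≤ (l.map ℓ).sum := by
  refine List.sum_nonneg ?_
  intro r hr
  obtain ⟨k, -, rfl⟩ := List.mem_map.1 hr
  exact hℓ k

theorem lens_bdd (x : H) : BddBelow (lens ℓ L x) := by
  refine ⟨0, ?_⟩
  rintro r ⟨l, y, hy, -, rfl⟩
  exact sum_len_nonneg hℓ l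

omit hℓ in
theorem lens_nonempty (x : H) : (lens ℓ L x).Nonempty :=
  ⟨_, [x], 1, L.one_mem, by simp, rfl⟩

theorem dst_one : dst ℓ L 1 = 0 := by
  refine le_antisymm ?_ ?_
  · exact csInf_le (lens_bdd hℓ L 1) ⟨[], 1, L.one_mem, by simp, by simp⟩
  · refine le_csInf (lens_nonempty L 1) ?_
    rintro r ⟨l, y, hy, -, rfl⟩
    exact sum_len_nonneg hℓ l

omit hℓ in
theorem dst_inv (x : H) {l : H} (hl : l ∈ L) : dst ℓ L (x * l) = dst ℓ L x := by
  unfold dst
  congr 1
  ext r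
  constructor
  · rintro ⟨s, y, hy, h, rfl⟩
    exact ⟨s, y * l⁻¹, L.mul_mem hy (L.inv_mem hl), by rw [← mul_assoc, ← h]; group, rfl⟩
  · rintro ⟨s, y, hy, h, rfl⟩
    exact ⟨s, y * l, L.mul_mem hy hl, by rw [← mul_assoc, ← h], rfl⟩

theorem dst_lip (k x : H) : dst ℓ L (k * x) ≤ dst ℓ L x + ℓ k := by
  rw [← sub_le_iff_le_add]
  refine le_csInf (lens_nonempty L x) ?_
  rintro r ⟨s, y, hy, h, rfl⟩
  rw [sub_le_iff_le_add]
  refine csInf_le (lens_bdd hℓ L _) ⟨k :: s, y, hy, ?_, ?_⟩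
  · rw [List.prod_cons, mul_assoc, ← h]
  · rw [List.map_cons, List.sum_cons, add_comm]

end

variable {W : Type v} [AddCommGroup W] [Module ℝ W] [TopologicalSpace W] [IsTopologicalAddGroup W]
    [ContinuousSMul ℝ W] [LocallyConvexSpace ℝ W] [T2Space W]
    {H : Type w} [Group H] [TopologicalSpace H] [IsTopologicalGroup H]

/-- The lengths of a Lie group defined by the continuous seminorms and a modulus. -/
noncomputable def lieLen (S : LieStr W H) {e : OpenPartialHomeomorph H W} (he : e ∈ S.atlas)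
    (h1 : (1 : H) ∈ e.source) (h0 : e 1 = 0) {ω : ℝ → ℝ} (hω : IsModulus ω) :
    Len {p : Seminorm ℝ W // Continuous p} H where
  len p := pl e p.1 ω
  tend p := tendsto_pl h1 h0 p.2 hω
  conj k₀ p := by
    obtain ⟨q, hq, N, hN, h⟩ := pl_conj S he h1 h0 hω k₀ p.1 p.2
    exact ⟨⟨q, hq⟩, N, hN, h⟩

/-- A closed subgroup of a Lie group with small products is separated from the other points by
two homomorphisms. -/
theorem mu_core [T2Space H] (S : LieStr W H) {e : OpenPartialHomeomorph H W} (he : e ∈ S.atlas)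
    (hμ : SmallProducts e) (L : Subgroup H) (hL : IsClosed (L : Set H)) {h₀ : H} (hh : h₀ ∉ L) :
    ∃ (K : Type w) (_ : Group K) (_ : TopologicalSpace K) (_ : IsTopologicalGroup K)
      (_ : T2Space K) (g₁ g₂ : H →* K), Continuous g₁ ∧ Continuous g₂ ∧
      (∀ l ∈ L, g₁ l = g₂ l) ∧ g₁ ≠ g₂ := by
  obtain ⟨h1, h0, hμ⟩ := hμ
  have hM : {m : H | m⁻¹ * h₀ ∉ L} ∈ 𝓝 (1 : H) := by
    have hc : Continuous fun m : H => m⁻¹ * h₀ := by fun_prop
    refine (hL.isOpen_compl.preimage hc).mem_nhds ?_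
    change (1 : H)⁻¹ * h₀ ∉ L
    rwa [inv_one, one_mul]
  obtain ⟨q, hqc, ω, hω, hq⟩ := hμ _ hM
  have h2 : 1 ≤ dst (pl e q ω) L h₀ := by
    refine le_csInf (lens_nonempty L h₀) ?_
    rintro r ⟨s, y, hy, h, rfl⟩
    by_contra hr
    rw [not_le] at hr
    have h3 : ∀ k ∈ s, k ∈ e.source ∧ ω (q (e k)) = pl e q ω k := by
      intro k hk
      have h4 := pl_lt (e := e) (p := q) (ω := ω) (k := k) (lt_of_le_of_lt ?_ hr)
      · exact ⟨h4.1, h4.2.2⟩
      refine List.single_le_sum ?_ _ (List.mem_map_of_mem hk)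
      intro r hr
      obtain ⟨k', -, rfl⟩ := List.mem_map.1 hr
      exact pl_nonneg e q hω k'
    have h4 : s.map (fun k => ω (q (e k))) = s.map (pl e q ω) :=
      List.map_congr_left fun k hk => (h3 k hk).2
    have h5 := hq s (fun k hk => (h3 k hk).1) (by rw [h4]; exact hr)
    refine h5 ?_
    rw [h, inv_mul_cancel_left]
    exact hy
  refine Len.exists_sep (Λ := lieLen S he h1 h0 hω) (L := L) (F := dst (pl e q ω) L)
    (fun x l hl => dst_inv L x hl) (p := ⟨q, hqc⟩)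
    (fun k x => dst_lip (fun k => pl_nonneg e q hω k) L k x) (h₀ := h₀) ?_
  rw [dst_one (fun k => pl_nonneg e q hω k) L]
  exact (zero_lt_one.trans_le h2).ne'

end Pool.Agent.L7h49.EP
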