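import Mathlib

/-!
# The topological semidirect product
-/

open Filter Topology Set

namespace Pool.Agent.L7h49.EP

universe u

/-- The semidirect product of an additive group with a group acting on it. -/
@[ext] structure Semi (V H : Type u) where
  /-- the vector part -/
  v : V
  /-- the group part -/
  h : H

namespace Semi

variable {V H : Type u}

/-- The set underlying the semidirect product is the product. -/
def toProd : Semi V H ≃ V × H where
  toFun x := (x.v, x.h)
  invFun x := ⟨x.1, x.2⟩
  left_inv _ := rfl
  right_inv _ := rfl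

instance [TopologicalSpace V] [TopologicalSpace H] : TopologicalSpace (Semi V H) :=
  TopologicalSpace.induced toProd inferInstance

variable [AddCommGroup V] [Group H] [DistribMulAction H V]

instance : Group (Semi V H) where
  mul x y := ⟨x.v + x.h • y.v, x.h * y.h⟩
  one := ⟨0, 1⟩
  inv x := ⟨-(x.h⁻¹ • x.v), x.h⁻¹⟩
  mul_assoc x y z := by
    ext
    · change (x.v + x.h • y.v) + (x.h * y.h) • z.v = x.v + x.h • (y.v + y.h • z.v)
      rw [smul_add, mul_smul, add_assoc]
    · exact mul_assoc _ _ _
  one_mul x := by
    ext
    · change 0 + (1 : H) • x.v = x.v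
      rw [one_smul, zero_add]
    · exact one_mul _
  mul_one x := by
    ext
    · change x.v + x.h • (0 : V) = x.v
      rw [smul_zero, add_zero]
    · exact mul_one _
  inv_mul_cancel x := by
    ext
    · change -(x.h⁻¹ • x.v) + x.h⁻¹ • x.v = 0
      exact neg_add_cancel _
    · exact inv_mul_cancel _

theorem mul_v (x y : Semi V H) : (x * y).v = x.v + x.h • y.v := rfl
theorem mul_h (x y : Semi V H) : (x * y).h = x.h * y.h := rfl
theorem inv_v (x : Semi V H) : (x⁻¹).v = -(x.h⁻¹ • x.v) := rfl
theorem inv_h (x : Semi V H) : (x⁻¹).h = x.h⁻¹ := rfl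

variable [TopologicalSpace V] [IsTopologicalAddGroup V] [TopologicalSpace H]
  [IsTopologicalGroup H] [ContinuousSMul H V]

omit [AddCommGroup V] [Group H] [DistribMulAction H V] [IsTopologicalAddGroup V]
  [IsTopologicalGroup H] [ContinuousSMul H V] in
theorem continuous_toProd : Continuous (toProd : Semi V H → V × H) := continuous_induced_dom

omit [AddCommGroup V] [Group H] [DistribMulAction H V] [IsTopologicalAddGroup V]
  [IsTopologicalGroup H] [ContinuousSMul H V] in
theorem continuous_v : Continuous (Semi.v : Semi V H → V) :=
  continuous_fst.comp continuous_toProd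

omit [AddCommGroup V] [Group H] [DistribMulAction H V] [IsTopologicalAddGroup V]
  [IsTopologicalGroup H] [ContinuousSMul H V] in
theorem continuous_h : Continuous (Semi.h : Semi V H → H) :=
  continuous_snd.comp continuous_toProd

omit [AddCommGroup V] [Group H] [DistribMulAction H V] [IsTopologicalAddGroup V]
  [IsTopologicalGroup H] [ContinuousSMul H V] in
theorem continuous_mk {T : Type*} [TopologicalSpace T] {a : T → V} {b : T → H}
    (ha : Continuous a) (hb : Continuous b) : Continuous fun t => (⟨a t, b t⟩ : Semi V H) :=
  continuous_induced_rng.2 (ha.prodMk hb)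

instance : IsTopologicalGroup (Semi V H) where
  continuous_mul := by
    refine continuous_mk ?_ ?_
    · exact (continuous_v.comp continuous_fst).add
        ((continuous_h.comp continuous_fst).smul (continuous_v.comp continuous_snd))
    · exact (continuous_h.comp continuous_fst).mul (continuous_h.comp continuous_snd)
  continuous_inv := by
    refine continuous_mk ?_ ?_
    · exact (continuous_h.inv.smul continuous_v).neg
    · exact continuous_h.inv

omit [AddCommGroup V] [Group H] [DistribMulAction H V] [IsTopologicalAddGroup V]
  [IsTopologicalGroup H] [ContinuousSMul H V] in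
instance [T2Space V] [T2Space H] : T2Space (Semi V H) :=
  T2Space.of_injective_continuous toProd.injective continuous_toProd

/-- The inclusion of `H`. -/
def incl : H →* Semi V H where
  toFun h := ⟨0, h⟩
  map_one' := rfl
  map_mul' x y := by
    ext
    · change (0 : V) = 0 + x • 0
      rw [smul_zero, add_zero]
    · rfl

omit [IsTopologicalAddGroup V] [IsTopologicalGroup H] [ContinuousSMul H V] in
theorem continuous_incl : Continuous (incl : H →* Semi V H) :=
  continuous_mk continuous_const continuous_id

/-- The inclusion of `H` composed with the conjugation by the vector `w`. -/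
def conjIncl (w : V) : H →* Semi V H :=
  (MulAut.conj (⟨w, 1⟩ : Semi V H)).toMonoidHom.comp incl

theorem continuous_conjIncl (w : V) : Continuous (conjIncl w : H →* Semi V H) := by
  change Continuous fun h : H => (⟨w, 1⟩ : Semi V H) * incl h * (⟨w, 1⟩ : Semi V H)⁻¹
  exact (continuous_const.mul continuous_incl).mul continuous_const

omit [TopologicalSpace V] [IsTopologicalAddGroup V] [TopologicalSpace H]
  [IsTopologicalGroup H] [ContinuousSMul H V] in
theorem conjIncl_apply (w : V) (h : H) : conjIncl w h = (⟨w - h • w, h⟩ : Semi V H) := by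
  change (⟨w, 1⟩ : Semi V H) * ⟨0, h⟩ * (⟨w, 1⟩ : Semi V H)⁻¹ = _
  ext
  · rw [mul_v, mul_v, mul_h, inv_v]
    simp only [one_smul, smul_zero, add_zero, inv_one, one_mul, smul_neg]
    rw [sub_eq_add_neg]
  · rw [mul_h, mul_h, inv_h]
    simp

omit [TopologicalSpace V] [IsTopologicalAddGroup V] [TopologicalSpace H]
  [IsTopologicalGroup H] [ContinuousSMul H V] in
theorem conjIncl_eq_iff (w : V) (h : H) : (incl h : Semi V H) = conjIncl w h ↔ h • w = w := by
  rw [conjIncl_apply]
  change (⟨0, h⟩ : Semi V H) = ⟨w - h • w, h⟩ ↔ _
  rw [Semi.mk.injEq]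
  constructor
  · rintro ⟨h1, -⟩
    exact (sub_eq_zero.1 h1.symm).symm
  · intro h1
    exact ⟨by rw [h1, sub_self], rfl⟩

end Semi

end Pool.Agent.L7h49.EP
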