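import Pool.Agent.L7h49.EP.Defs

open Filter Topology Set MeasureTheory
open scoped ENNReal

namespace Pool.Agent.L7h49.EP

/-- `L^p([0,1])`. -/
abbrev LpI (p : ℝ≥0∞) : Type := Lp ℝ p (volume.restrict (Icc (0 : ℝ) 1))

/-- The function is integer-valued almost everywhere. -/
def IsIntVal {p : ℝ≥0∞} (f : LpI p) : Prop :=
  ∀ᵐ x ∂(volume.restrict (Icc (0 : ℝ) 1)), ∃ n : ℤ, f x = n

theorem IsIntVal.zero {p : ℝ≥0∞} : IsIntVal (0 : LpI p) := by
  unfold IsIntVal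
  filter_upwards [Lp.coeFn_zero ℝ p (volume.restrict (Icc (0 : ℝ) 1))] with x hx
  exact ⟨0, by rw [hx]; simp⟩

theorem IsIntVal.add {p : ℝ≥0∞} {f g : LpI p} (hf : IsIntVal f) (hg : IsIntVal g) :
    IsIntVal (f + g) := by
  unfold IsIntVal at *
  filter_upwards [Lp.coeFn_add f g, hf, hg] with x hx h1 h2
  obtain ⟨m, hm⟩ := h1
  obtain ⟨n, hn⟩ := h2
  exact ⟨m + n, by rw [hx, Pi.add_apply, hm, hn]; push_cast; rfl⟩

theorem IsIntVal.neg {p : ℝ≥0∞} {f : LpI p} (hf : IsIntVal f) : IsIntVal (-f) := by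
  unfold IsIntVal at *
  filter_upwards [Lp.coeFn_neg f, hf] with x hx h1
  obtain ⟨m, hm⟩ := h1
  exact ⟨-m, by rw [hx, Pi.neg_apply, hm]; push_cast; rfl⟩

/-- The subgroup of the integer-valued functions. -/
def IntVal (p : ℝ≥0∞) : AddSubgroup (LpI p) where
  carrier := {f | IsIntVal f}
  zero_mem' := IsIntVal.zero
  add_mem' := fun hf hg => IsIntVal.add hf hg
  neg_mem' := fun hf => IsIntVal.neg hf

/-- PART LP: the integer-valued functions are not dense, but they can be cut into small pieces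
(cut the indicator function of a measurable set by the intervals `((i - 1) / N, i / N]`). -/
def S_LP : Prop :=
  ∀ (p : ℝ≥0∞) [Fact (1 ≤ p)], p ≠ ⊤ →
    ¬ Dense (IntVal p : Set (LpI p)) ∧
    ∃ S : Set (LpI p), Dense (Submodule.span ℝ S : Set (LpI p)) ∧
      ∀ v ∈ S, ∀ N : ℕ, 0 < N → ∃ d : ℕ → LpI p, (∀ i, d i ∈ IntVal p) ∧
        ∑ i ∈ Finset.range N, d i = v ∧ (∀ i, ‖d i‖ ≤ ((N : ℝ)⁻¹) ^ (1 / p.toReal)) ∧
        ∀ j ≤ N, ‖∑ i ∈ Finset.range j, d i‖ ≤ 1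

end Pool.Agent.L7h49.EP
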