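import Pool.Agent.L7h49.EP.Defs

open Filter Topology Set

namespace Pool.Agent.L7h49.EP

universe u v w

/-- PART STRONG: a map of class `C^1` is strictly differentiable: the difference quotients at
`x'` in the direction `v'` converge if `t → 0`, `x' → x` and `v' → v` (mean value theorem: all
points `x' + s t v'`, `0 ≤ s ≤ 1`, are close to `x`). Only the codomain is locally convex. -/
def S_STRONG : Prop :=
  ∀ (E : Type u) (F : Type v) [AddCommGroup E] [Module ℝ E] [TopologicalSpace E]
    [IsTopologicalAddGroup E] [ContinuousSMul ℝ E]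
    [AddCommGroup F] [Module ℝ F] [TopologicalSpace F] [IsTopologicalAddGroup F]
    [ContinuousSMul ℝ F] [LocallyConvexSpace ℝ F]
    (f : E → F) (U : Set E) (f' : E × E → F), IsOpen U →
    (∀ x ∈ U, ∀ v, DirDeriv f (f' (x, v)) x v) → ContinuousOn f' (U ×ˢ (univ : Set E)) →
    ∀ x ∈ U, ∀ v, Tendsto (fun q : ℝ × E × E => q.1⁻¹ • (f (q.2.1 + q.1 • q.2.2) - f q.2.1))
      (𝓝[≠] 0 ×ˢ (𝓝 x ×ˢ 𝓝 v)) (𝓝 (f' (x, v)))

/-- PART COMP: the chain rule (by induction from `S_STRONG`; `f' (x, v)` is additive and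
homogeneous in `v`; prove on the way that pairs, compositions with continuous linear maps, and
continuous linear maps are `C^n`). -/
def S_COMP : Prop :=
  ∀ (n : ℕ) (E : Type u) (F : Type v) (G : Type w)
    [AddCommGroup E] [Module ℝ E] [TopologicalSpace E] [IsTopologicalAddGroup E]
    [ContinuousSMul ℝ E]
    [AddCommGroup F] [Module ℝ F] [TopologicalSpace F] [IsTopologicalAddGroup F]
    [ContinuousSMul ℝ F] [T2Space F]
    [AddCommGroup G] [Module ℝ G] [TopologicalSpace G] [IsTopologicalAddGroup G]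
    [ContinuousSMul ℝ G] [LocallyConvexSpace ℝ G] [T2Space G]
    (f : E → F) (g : F → G) (U : Set E) (V : Set F), IsOpen U → IsOpen V → MapsTo f U V →
    Cn n f U → Cn n g V → Cn n (fun x => g (f x)) U

end Pool.Agent.L7h49.EP
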